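import Pool.Agent.K7.H60.PL.Cn
import Pool.Agent.K7.H60.TL.Co2
import Pool.Agent.H474R2.PG.Class
import Pool.Agent.H474R2.PG.CovA

/-!
The pair law of the colours given by a polynomial.
-/

set_option autoImplicit false
set_option linter.unusedSectionVars false

namespace Pool.Agent.K7.H60.PL

open Finset Polynomial Pool.Agent.H256R2.SC Pool.Agent.K7.H60.TL
open Pool.Agent.H474R2.PG (rho colh colh_eq)

open scoped Classical

variable {κ : Type} [Fintype κ] [DecidableEq κ]

/-- `p` divides the value at the place of the colour `k` -/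
def hitf (f : ℤ[X]) (sh : κ → ℕ) (p : ℕ) (a : ℤ) (k : κ) : Prop :=
  (p : ℤ) ∣ f.eval (a + (sh k : ℤ))

/-- the weights of the primes -/
noncomputable def gp (f : ℤ[X]) (PP : Finset ℕ) : Fin PP.card → ℝ := fun i =>
  (rho f (emb PP i) : ℝ) / ((emb PP i : ℕ) : ℝ)

/-- joint numbers of residues -/
noncomputable def r2 (f : ℤ[X]) (sh : κ → ℕ) (t : ℤ) (p : ℕ) (k l : κ) : ℕ :=
  ((range p).filter (fun a : ℕ => hitf f sh p (a : ℤ) k ∧ hitf f sh p ((a : ℤ) + t) l)).card

/-- joint probabilities -/
noncomputable def m2 (f : ℤ[X]) (PP : Finset ℕ) (sh : κ → ℕ) (t : ℤ) (i : Fin PP.card)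
    (k l : κ) : ℝ := (r2 f sh t (emb PP i) k l : ℝ) / ((emb PP i : ℕ) : ℝ)

theorem hitf_congr (f : ℤ[X]) (sh : κ → ℕ) (p : ℕ) (k : κ) {a b : ℤ} (h : (p : ℤ) ∣ a - b) :
    hitf f sh p a k ↔ hitf f sh p b k := by
  unfold hitf
  apply Pool.Agent.H474R2.PG.eval_dvd_congr
  have : a + (sh k : ℤ) - (b + (sh k : ℤ)) = a - b := by ring
  rw [this]
  exact h

theorem rho_shift (f : ℤ[X]) {p : ℕ} (hp : p.Prime) (s : ℤ) :
    ((range p).filter (fun a : ℕ => (p : ℤ) ∣ f.eval ((a : ℤ) + s))).card = rho f p := by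
  convert Pool.Agent.H474R2.PG.rho_shift f p hp s

theorem card_hit (f : ℤ[X]) (sh : κ → ℕ) {p : ℕ} (hp : p.Prime) (t : ℤ) (k : κ) :
    ((range p).filter (fun a : ℕ => hitf f sh p ((a : ℤ) + t) k)).card = rho f p := by
  rw [← rho_shift f hp (t + (sh k : ℤ))]
  congr 1
  apply filter_congr
  intro a _
  unfold hitf
  rw [add_assoc]

theorem card_hit0 (f : ℤ[X]) (sh : κ → ℕ) {p : ℕ} (hp : p.Prime) (k : κ) :
    ((range p).filter (fun a : ℕ => hitf f sh p (a : ℤ) k)).card = rho f p := by
  have h := card_hit f sh hp 0 k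
  simpa using h

section
variable {f : ℤ[X]} {PP : Finset ℕ} {sh : κ → ℕ}

theorem sum_r2_row {p : ℕ} (hp : p.Prime)
    (huniq : ∀ a k l, hitf f sh p a k → hitf f sh p a l → k = l) (t : ℤ) (k : κ) :
    ∑ l, r2 f sh t p k l ≤ rho f p := by
  rw [← card_hit0 f sh hp k]
  unfold r2
  simp only [card_filter]
  rw [sum_comm]
  apply sum_le_sum
  intro a _
  by_cases h : hitf f sh p (a : ℤ) k
  · rw [if_pos h]
    simp only [h, true_and]
    rw [← card_filter]
    apply card_le_one.2
    intro x hx y hy
    rw [mem_filter] at hx hy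
    exact huniq _ x y hx.2 hy.2
  · rw [if_neg h]
    simp [h]

theorem sum_r2_col {p : ℕ} (hp : p.Prime)
    (huniq : ∀ a k l, hitf f sh p a k → hitf f sh p a l → k = l) (t : ℤ) (l : κ) :
    ∑ k, r2 f sh t p k l ≤ rho f p := by
  rw [← card_hit f sh hp t l]
  unfold r2
  simp only [card_filter]
  rw [sum_comm]
  apply sum_le_sum
  intro a _
  by_cases h : hitf f sh p ((a : ℤ) + t) l
  · rw [if_pos h]
    simp only [h, and_true]
    rw [← card_filter]
    apply card_le_one.2
    intro x hx y hy
    rw [mem_filter] at hx hy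
    exact huniq _ x y hx.2 hy.2
  · rw [if_neg h]
    simp [h]

theorem m2_Mt3 (hP : ∀ p ∈ PP, p.Prime)
    (huniq : ∀ p ∈ PP, ∀ a k l, hitf f sh p a k → hitf f sh p a l → k = l) (t : ℤ)
    (i : Fin PP.card) : Mt3 (gp f PP i) (m2 f PP sh t i) := by
  have hp := hP _ (emb_mem PP i)
  have hu := huniq _ (emb_mem PP i)
  refine ⟨fun k l => div_nonneg (Nat.cast_nonneg _) (Nat.cast_nonneg _), fun k => ?_, fun l => ?_⟩
  · unfold m2 gp
    rw [← sum_div]
    apply div_le_div_of_nonneg_right _ (Nat.cast_nonneg _)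
    exact_mod_cast sum_r2_row hp hu t k
  · unfold m2 gp
    rw [← sum_div]
    apply div_le_div_of_nonneg_right _ (Nat.cast_nonneg _)
    exact_mod_cast sum_r2_col hp hu t l

/-- the integers of the class as a set of integers -/
theorem card_Sx (X W b : ℕ) (hX : 1 ≤ X) (hb : b < W) (R : ℤ → Prop) :
    ((Sx X W b).filter (fun n : ℕ => R (n : ℤ))).card =
      ((Finset.Ioc ((X : ℤ) - 1) (2 * X - 1)).filter
        (fun a : ℤ => (W : ℤ) ∣ a - (b : ℤ) ∧ R a)).card := by
  have hbW : ∀ n : ℕ, n % W = b ↔ (W : ℤ) ∣ (n : ℤ) - b := by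
    intro n
    constructor
    · intro h
      have h1 : n ≡ b [MOD W] := by
        unfold Nat.ModEq
        rw [h, Nat.mod_eq_of_lt hb]
      exact (Nat.modEq_iff_dvd.1 h1.symm)
    · intro h
      have h1 : b ≡ n [MOD W] := Nat.modEq_iff_dvd.2 h
      unfold Nat.ModEq at h1
      rw [Nat.mod_eq_of_lt hb] at h1
      exact h1.symm
  refine card_bij (fun n _ => (n : ℤ)) ?_ ?_ ?_
  · intro n hn
    unfold Sx at hn
    rw [mem_filter, mem_filter, mem_Ico] at hn
    rw [mem_filter, mem_Ioc]
    exact ⟨by omega, (hbW n).1 hn.1.2, hn.2⟩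
  · intro a _ b _ hab
    exact_mod_cast hab
  · intro x hx
    rw [mem_filter, mem_Ioc] at hx
    have h3 : ((x.toNat : ℕ) : ℤ) = x := Int.toNat_of_nonneg (by omega)
    refine ⟨x.toNat, ?_, h3⟩
    unfold Sx
    rw [mem_filter, mem_filter, mem_Ico]
    refine ⟨⟨by omega, (hbW _).2 ?_⟩, ?_⟩
    · rw [h3]
      exact hx.2.1
    · rw [h3]
      exact hx.2.2

/-- the pair condition at the prime `i` -/
def PC (f : ℤ[X]) (PP : Finset ℕ) (sh : κ → ℕ) (t : ℤ) (D D' : Col PP.card κ)
    (i : Fin PP.card) (a : ℤ) : Prop :=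
  (∀ k, D i = some k → hitf f sh (emb PP i) a k) ∧
    (∀ l, D' i = some l → hitf f sh (emb PP i) (a + t) l)

theorem nP_ratio (hP : ∀ p ∈ PP, p.Prime) (t : ℤ) (D D' : Col PP.card κ) (i : Fin PP.card) :
    (nP (fun i => (emb PP i : ℕ)) (PC f PP sh t D D') i : ℝ) / ((emb PP i : ℕ) : ℝ) =
      nu3 (gp f PP i) (m2 f PP sh t i) (D i) (D' i) := by
  have hp := hP _ (emb_mem PP i)
  have hp0 : ((emb PP i : ℕ) : ℝ) ≠ 0 := by exact_mod_cast hp.ne_zero
  unfold nP PC
  cases hD : D i with
  | none =>
    cases hD' : D' i with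
    | none =>
      simp only [nu3, reduceCtorEq, false_implies, implies_true, and_self, filter_true, card_range]
      exact div_self hp0
    | some l =>
      simp only [nu3, reduceCtorEq, false_implies, implies_true, true_and, Option.some.injEq,
        forall_eq']
      unfold gp
      rw [card_hit f sh hp t l]
  | some k =>
    cases hD' : D' i with
    | none =>
      simp only [nu3, reduceCtorEq, false_implies, implies_true, and_true, Option.some.injEq,
        forall_eq']
      unfold gp
      rw [card_hit0 f sh hp k]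
    | some l =>
      simp only [nu3, Option.some.injEq, forall_eq']
      rfl

/-- the number of integers with prescribed colours at two places -/
theorem count_pairf (hP : ∀ p ∈ PP, p.Prime)
    (huniq : ∀ p ∈ PP, ∀ a k l, hitf f sh p a k → hitf f sh p a l → k = l)
    (X W b : ℕ) (hX : 1 ≤ X) (hW : 1 ≤ W) (hb : b < W) (hPW : ∀ p ∈ PP, ¬ p ∣ W) (t : ℤ)
    (D D' : Col PP.card κ) :
    |(((Sx X W b).filter (fun n : ℕ => Ev D (colh PP (hitf f sh) (n : ℤ)) ∧
        Ev D' (colh PP (hitf f sh) ((n : ℤ) + t)))).card : ℝ) -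
      (X : ℝ) / W * ∏ i, nu3 (gp f PP i) (m2 f PP sh t i) (D i) (D' i)| ≤
        qq (Pf PP) D * qq (Pf PP) D' := by
  set T : Finset (Fin PP.card) := supp D ∪ supp D' with hT
  have h1 : (Sx X W b).filter (fun n : ℕ => Ev D (colh PP (hitf f sh) (n : ℤ)) ∧
        Ev D' (colh PP (hitf f sh) ((n : ℤ) + t))) =
      (Sx X W b).filter (fun n : ℕ => ∀ i ∈ T, PC f PP sh t D D' i (n : ℤ)) := by
    apply filter_congr
    intro n _
    have key : ∀ i, ((D i ≠ none → colh PP (hitf f sh) (n : ℤ) i = D i) ∧
        (D' i ≠ none → colh PP (hitf f sh) ((n : ℤ) + t) i = D' i)) ↔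
        (i ∈ T → PC f PP sh t D D' i (n : ℤ)) := by
      intro i
      rw [hT, mem_union, mem_supp, mem_supp]
      unfold PC
      cases hD : D i with
      | none =>
        cases hD' : D' i with
        | none => simp
        | some l =>
          simp only [ne_eq, not_true_eq_false, false_implies, true_and, reduceCtorEq,
            not_false_eq_true, true_implies, false_or, implies_true, Option.some.injEq,
            forall_eq']
          exact colh_eq huniq _ i l
      | some k =>
        cases hD' : D' i with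
        | none =>
          simp only [ne_eq, not_true_eq_false, false_implies, and_true, reduceCtorEq,
            not_false_eq_true, true_implies, or_false, implies_true, Option.some.injEq,
            forall_eq']
          exact colh_eq huniq _ i k
        | some l =>
          simp only [ne_eq, reduceCtorEq, not_false_eq_true, true_implies, or_self,
            Option.some.injEq, forall_eq']
          rw [colh_eq huniq, colh_eq huniq]
    constructor
    · rintro ⟨h1, h2⟩ i hi
      exact (key i).1 ⟨h1 i, h2 i⟩ hi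
    · intro h
      exact ⟨fun i => ((key i).2 (h i)).1, fun i => ((key i).2 (h i)).2⟩
  have h2 := card_Sx X W b hX hb (fun a => ∀ i ∈ T, PC f PP sh t D D' i a)
  have h3 := count_per (fun i => (emb PP i : ℕ)) (PC f PP sh t D D')
    (by
      intro i a c hac
      unfold PC
      have e1 : ∀ k, hitf f sh (emb PP i) a k ↔ hitf f sh (emb PP i) c k := fun k =>
        hitf_congr f sh _ k hac
      have e2 : ∀ k, hitf f sh (emb PP i) (a + t) k ↔ hitf f sh (emb PP i) (c + t) k := fun k =>
        hitf_congr f sh _ k (by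
          have : a + t - (c + t) = a - c := by ring
          rw [this]
          exact hac)
      simp only [e1, e2])
    ((X : ℤ) - 1) (2 * X - 1) (by omega) W hW (b : ℤ) T
    (fun i _ => ⟨hP _ (emb_mem PP i), hPW _ (emb_mem PP i)⟩)
    (fun i _ j _ h => (emb PP).injective h)
  have h4 : ((((2 * X - 1 : ℤ)) : ℝ) - (((X : ℤ) - 1 : ℤ) : ℝ)) / W = (X : ℝ) / W := by
    push_cast
    congr 1
    ring
  have h5 : ∏ i ∈ T, (nP (fun i => (emb PP i : ℕ)) (PC f PP sh t D D') i : ℝ) /
      ((emb PP i : ℕ) : ℝ) = ∏ i, nu3 (gp f PP i) (m2 f PP sh t i) (D i) (D' i) := by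
    rw [← prod_subset (subset_univ T)]
    · exact prod_congr rfl fun i _ => nP_ratio hP t D D' i
    · intro i _ hi
      rw [hT, mem_union, mem_supp, mem_supp] at hi
      push Not at hi
      rw [hi.1, hi.2]
      simp only [nu3]
  have h6 : ∏ i ∈ T, (nP (fun i => (emb PP i : ℕ)) (PC f PP sh t D D') i : ℝ) ≤
      qq (Pf PP) D * qq (Pf PP) D' := by
    have hp1 : ∀ i : Fin PP.card, (1 : ℝ) ≤ ((emb PP i : ℕ) : ℝ) := fun i => by
      exact_mod_cast (hP _ (emb_mem PP i)).one_lt.le
    have hq : qq (Pf PP) D * qq (Pf PP) D' = ∏ i, nu1 (Pf PP i) (D i) * nu1 (Pf PP i) (D' i) := by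
      unfold qq
      rw [prod_mul_distrib]
    have hn : ∀ (i : Fin PP.card) (c : Option κ), 1 ≤ nu1 (Pf PP i) c := by
      intro i c
      cases c with
      | none => simp [nu1]
      | some k => simpa [nu1] using hp1 i
    rw [hq]
    calc ∏ i ∈ T, (nP (fun i => (emb PP i : ℕ)) (PC f PP sh t D D') i : ℝ) ≤
          ∏ i ∈ T, nu1 (Pf PP i) (D i) * nu1 (Pf PP i) (D' i) := by
          apply Finset.prod_le_prod
          · intro i _
            exact Nat.cast_nonneg _
          · intro i hi
            have e1 : (nP (fun i => (emb PP i : ℕ)) (PC f PP sh t D D') i : ℝ) ≤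
                ((emb PP i : ℕ) : ℝ) := by
              unfold nP
              have := card_filter_le (range (emb PP i : ℕ))
                (fun a : ℕ => PC f PP sh t D D' i (a : ℤ))
              rw [card_range] at this
              exact_mod_cast this
            refine e1.trans ?_
            rw [hT, mem_union, mem_supp, mem_supp] at hi
            rcases hi with h | h
            · obtain ⟨k, hk⟩ := Option.ne_none_iff_exists'.1 h
              rw [hk]
              simp only [nu1]
              exact le_mul_of_one_le_right (by linarith [hp1 i]) (hn i _)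
            · obtain ⟨l, hl⟩ := Option.ne_none_iff_exists'.1 h
              rw [hl]
              have e2 : nu1 (Pf PP i) (some l : Option κ) = ((emb PP i : ℕ) : ℝ) := rfl
              rw [e2]
              exact le_mul_of_one_le_left (by linarith [hp1 i]) (hn i _)
      _ ≤ ∏ i, nu1 (Pf PP i) (D i) * nu1 (Pf PP i) (D' i) := by
          apply Finset.prod_le_prod_of_subset_of_one_le (subset_univ T)
          · intro i _
            have := mul_le_mul (hn i (D i)) (hn i (D' i)) zero_le_one
              (by linarith [hn i (D i)])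
            linarith
          · intro i _ _
            have := mul_le_mul (hn i (D i)) (hn i (D' i)) zero_le_one
              (by linarith [hn i (D i)])
            linarith
  rw [h1]
  rw [h4, h5] at h3
  refine le_trans (le_of_eq ?_) (h3.trans h6)
  congr 2
  have h7 : ∀ (A B : ℕ), A = B → (A : ℝ) = (B : ℝ) := fun A B h => by rw [h]
  apply h7
  convert h2

theorem count_singlef (hP : ∀ p ∈ PP, p.Prime)
    (huniq : ∀ p ∈ PP, ∀ a k l, hitf f sh p a k → hitf f sh p a l → k = l)
    (X W b : ℕ) (hX : 1 ≤ X) (hW : 1 ≤ W) (hb : b < W) (hPW : ∀ p ∈ PP, ¬ p ∣ W)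
    (D : Col PP.card κ) :
    |(((Sx X W b).filter (fun n : ℕ => ∀ i, D i ≠ none →
        colh PP (hitf f sh) (n : ℤ) i = D i)).card : ℝ) -
      (X : ℝ) / W * nu (gp f PP) D| ≤ qq (Pf PP) D := by
  have h1 := count_pairf hP huniq X W b hX hW hb hPW 0 D (fun _ => none)
  have h2 : (Sx X W b).filter (fun n : ℕ => Ev D (colh PP (hitf f sh) (n : ℤ)) ∧
        Ev (fun _ => none) (colh PP (hitf f sh) ((n : ℤ) + 0))) =
      (Sx X W b).filter (fun n : ℕ => ∀ i, D i ≠ none →
        colh PP (hitf f sh) (n : ℤ) i = D i) := by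
    apply filter_congr
    intro n _
    constructor
    · exact fun h => h.1
    · intro h
      exact ⟨h, fun i hi => absurd rfl hi⟩
  have h3 : ∏ i, nu3 (gp f PP i) (m2 f PP sh 0 i) (D i) none = nu (gp f PP) D := by
    unfold nu
    apply prod_congr rfl
    intro i _
    cases D i <;> simp only [nu1, nu3]
  have h4 : qq (Pf PP) (fun _ => none : Col PP.card κ) = 1 := by
    unfold qq
    simp [nu1]
  rw [h2, h3, h4, mul_one] at h1
  exact h1

end

end Pool.Agent.K7.H60.PL
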