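import Pool.Agent.H474R2.PG.NoColl
import Pool.Agent.K7.H60.PL.Pl

/-!
Values of an irreducible polynomial at close arguments have few common prime factors.
-/

set_option autoImplicit false
set_option linter.unusedSectionVars false

namespace Pool.Agent.K7.H60.PL

open Finset Polynomial Pool.Agent.H256R2.SC Pool.Agent.K7.H60.TL
open Pool.Agent.H474R2.PG (rho ncol_res)

open scoped Classical

/-- the resultant of the polynomial and its translate -/
theorem coll_self (f : ℤ[X]) (hf : Irreducible f) (hd : 0 < f.natDegree) :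
    ∃ (R : ℤ → ℤ) (K : ℝ) (D : ℕ), 1 ≤ K ∧ ∀ t : ℤ, t ≠ 0 → R t ≠ 0 ∧
      |((R t : ℤ) : ℝ)| ≤ K * (1 + |(t : ℝ)|) ^ D ∧
      ∀ p : ℕ, ∀ x : ℤ, (p : ℤ) ∣ f.eval x → (p : ℤ) ∣ f.eval (x + t) → (p : ℤ) ∣ R t := by
  set d := f.natDegree with hdd
  set F : ℤ[X][X] := f.map C with hF
  set G : ℤ[X][X] := F.comp (X + C X) with hG
  have hFd : F.natDegree ≤ d := natDegree_map_le
  have hGd : G.natDegree ≤ d := by
    have h1 : (X + C X : ℤ[X][X]).natDegree = 1 := natDegree_X_add_C _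
    calc G.natDegree ≤ F.natDegree * (X + C X : ℤ[X][X]).natDegree := natDegree_comp_le
      _ ≤ d := by rw [h1, mul_one]; exact hFd
  obtain ⟨P, Q, -, -, hPQ⟩ := exists_mul_add_mul_eq_C_resultant F G hFd hGd (Or.inl hd.ne')
  set R : ℤ[X] := F.resultant G d d with hR
  have key1 : ∀ x t : ℤ, ∃ u v : ℤ, f.eval x * u + f.eval (x + t) * v = R.eval t := by
    intro x t
    refine ⟨((P.eval (C x)).eval t), ((Q.eval (C x)).eval t), ?_⟩
    have h := congrArg (fun q : ℤ[X][X] => (q.eval (C x)).eval t) hPQ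
    simp only [eval_add, eval_mul, eval_C] at h
    have hFx : (F.eval (C x)).eval t = f.eval x := by
      rw [hF, eval_map, eval₂_at_apply, eval_C]
    have hGx : (G.eval (C x)).eval t = f.eval (x + t) := by
      rw [hG, eval_comp, hF, eval_map]
      simp only [eval_add, eval_X, eval_C]
      have := Polynomial.hom_eval₂ f C (evalRingHom t) (C x + X)
      simp only [coe_evalRingHom] at this
      rw [this]
      have hid : (evalRingHom t).comp C = RingHom.id ℤ := by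
        ext; simp
      rw [hid]
      simp [eval₂_id]
    rw [hFx, hGx] at h
    exact h
  have key2 : ∀ t : ℤ, t ≠ 0 → R.eval t ≠ 0 := by
    intro t ht h0
    apply ncol_res f hf hd t ht
    have h1 := resultant_map_map F G d d (evalRingHom t)
    have hFm : F.map (evalRingHom t) = f := by
      rw [hF, Polynomial.map_map]
      have hid : (evalRingHom t).comp C = RingHom.id ℤ := by
        ext; simp
      rw [hid, Polynomial.map_id]
    have hGm : G.map (evalRingHom t) = f.comp (X + C t) := by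
      rw [hG, Polynomial.map_comp, hFm]
      simp
    rw [hFm, hGm] at h1
    rw [← hdd, h1, ← hR]
    simpa using h0
  set K : ℝ := ∑ i ∈ range (R.natDegree + 1), |((R.coeff i : ℤ) : ℝ)| with hK
  have key3 : ∀ t : ℤ, |((R.eval t : ℤ) : ℝ)| ≤ K * (1 + |(t : ℝ)|) ^ R.natDegree := by
    intro t
    have h1 : (1 : ℝ) ≤ 1 + |(t : ℝ)| := by linarith [abs_nonneg (t : ℝ)]
    rw [eval_eq_sum_range]
    push_cast
    refine (abs_sum_le_sum_abs _ _).trans ?_
    rw [hK, sum_mul]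
    refine sum_le_sum fun i hi => ?_
    rw [abs_mul, abs_pow]
    refine mul_le_mul_of_nonneg_left ?_ (abs_nonneg _)
    calc |(t : ℝ)| ^ i ≤ (1 + |(t : ℝ)|) ^ i :=
          pow_le_pow_left₀ (abs_nonneg _) (by linarith) i
      _ ≤ (1 + |(t : ℝ)|) ^ R.natDegree :=
          pow_le_pow_right₀ h1 (by simpa [Nat.lt_succ_iff] using hi)
  have hK0 : 0 ≤ K := sum_nonneg fun i _ => abs_nonneg _
  refine ⟨fun t => R.eval t, K + 1, R.natDegree, by linarith, ?_⟩
  intro t ht
  refine ⟨key2 t ht, ?_, ?_⟩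
  · refine (key3 t).trans ?_
    apply mul_le_mul_of_nonneg_right (by linarith)
    positivity
  · intro p x hx hxt
    obtain ⟨u, v, huv⟩ := key1 x t
    show (p : ℤ) ∣ R.eval t
    rw [← huv]
    exact dvd_add (hx.mul_right _) (hxt.mul_right _)

variable {κ : Type} [Fintype κ] [DecidableEq κ]

/-- large primes hit at most one of the colours -/
theorem uniq_of_large {f : ℤ[X]} {R : ℤ → ℤ} {K : ℝ} {D : ℕ} (hK : 1 ≤ K)
    (hR : ∀ t : ℤ, t ≠ 0 → R t ≠ 0 ∧
      |((R t : ℤ) : ℝ)| ≤ K * (1 + |(t : ℝ)|) ^ D ∧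
      ∀ p : ℕ, ∀ x : ℤ, (p : ℤ) ∣ f.eval x → (p : ℤ) ∣ f.eval (x + t) → (p : ℤ) ∣ R t)
    {sh : κ → ℕ} (hinj : Function.Injective sh) {N : ℕ} (hsh : ∀ k, sh k ≤ N)
    {p : ℕ} (hp : K * (1 + (N : ℝ)) ^ D < p) :
    ∀ a k l, hitf f sh p a k → hitf f sh p a l → k = l := by
  intro a k l hk hl
  by_contra hne
  have ht : ((sh l : ℤ) - (sh k : ℤ)) ≠ 0 := by
    intro h
    have : sh l = sh k := by omega
    exact hne (hinj this).symm
  obtain ⟨h1, h2, h3⟩ := hR _ ht
  have h4 := h3 p (a + (sh k : ℤ)) hk (by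
    have : a + (sh k : ℤ) + ((sh l : ℤ) - (sh k : ℤ)) = a + (sh l : ℤ) := by ring
    rw [this]
    exact hl)
  have h5 : (p : ℤ) ≤ |R ((sh l : ℤ) - (sh k : ℤ))| :=
    Int.le_of_dvd (abs_pos.2 h1) ((dvd_abs _ _).2 h4)
  have h6 : (p : ℝ) ≤ |((R ((sh l : ℤ) - (sh k : ℤ)) : ℤ) : ℝ)| := by
    have : ((p : ℤ) : ℝ) ≤ ((|R ((sh l : ℤ) - (sh k : ℤ))| : ℤ) : ℝ) := by exact_mod_cast h5
    rw [Int.cast_abs] at this
    simpa using this
  have h7 : |(((sh l : ℤ) - (sh k : ℤ) : ℤ) : ℝ)| ≤ N := by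
    have e1 : (sh l : ℝ) ≤ N := by exact_mod_cast hsh l
    have e2 : (sh k : ℝ) ≤ N := by exact_mod_cast hsh k
    have e3 : (0 : ℝ) ≤ sh l := Nat.cast_nonneg _
    have e4 : (0 : ℝ) ≤ sh k := Nat.cast_nonneg _
    push_cast
    rw [abs_le]
    constructor <;> linarith
  have h8 : K * (1 + |(((sh l : ℤ) - (sh k : ℤ) : ℤ) : ℝ)|) ^ D ≤ K * (1 + (N : ℝ)) ^ D := by
    apply mul_le_mul_of_nonneg_left _ (by linarith)
    apply pow_le_pow_left₀ (by positivity)
    linarith
  linarith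

/-- the primes at which both places can be hit -/
theorem bad_primes {f : ℤ[X]} {R : ℤ → ℤ} {K : ℝ} {D : ℕ} (hK : 1 ≤ K)
    (hR : ∀ t : ℤ, t ≠ 0 → R t ≠ 0 ∧
      |((R t : ℤ) : ℝ)| ≤ K * (1 + |(t : ℝ)|) ^ D ∧
      ∀ p : ℕ, ∀ x : ℤ, (p : ℤ) ∣ f.eval x → (p : ℤ) ∣ f.eval (x + t) → (p : ℤ) ∣ R t)
    {sh : κ → ℕ} {N W Y : ℕ} (hsh : ∀ k, sh k ≤ N) (hNW : N < W)
    {PP : Finset ℕ} (hP : ∀ p ∈ PP, p.Prime) {Δ w : ℝ} (hΔ : 0 ≤ Δ) (hw : 0 < w)
    (hg : ∀ i, gp f PP i ≤ Δ / w) (t : ℕ) (hWt : W ≤ t) (htY : t ≤ Y) :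
    ∃ bad : Finset (Fin PP.card), (∀ i, i ∉ bad → ∀ k l, m2 f PP sh t i k l = 0) ∧
      ∑ i ∈ bad, gp f PP i ≤ (Fintype.card κ : ℝ) ^ 2 *
        ((2 * (Real.log K + D * Real.log (1 + 2 * Y))) * (Δ / w)) := by
  set u : κ → κ → ℤ := fun k l => (t : ℤ) + (sh l : ℤ) - (sh k : ℤ) with hu
  have hu0 : ∀ k l, u k l ≠ 0 := by
    intro k l
    have h1 := hsh k
    have h2 := hsh l
    simp only [hu]
    omega
  have huY : ∀ k l, |((u k l : ℤ) : ℝ)| ≤ 2 * Y := by
    intro k l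
    have h1 : (sh k : ℝ) ≤ Y := by
      have := hsh k
      exact_mod_cast (by omega : sh k ≤ Y)
    have h2 : (sh l : ℝ) ≤ Y := by
      have := hsh l
      exact_mod_cast (by omega : sh l ≤ Y)
    have h3 : (t : ℝ) ≤ Y := by exact_mod_cast htY
    have e3 : (0 : ℝ) ≤ sh l := Nat.cast_nonneg _
    have e4 : (0 : ℝ) ≤ sh k := Nat.cast_nonneg _
    have e5 : (0 : ℝ) ≤ t := Nat.cast_nonneg _
    simp only [hu]
    push_cast
    rw [abs_le]
    constructor <;> linarith
  set Bd : κ × κ → Finset (Fin PP.card) := fun kl =>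
    univ.filter (fun i : Fin PP.card => (emb PP i : ℕ) ∣ (R (u kl.1 kl.2)).natAbs) with hBd
  refine ⟨univ.biUnion Bd, ?_, ?_⟩
  · intro i hi k l
    rw [mem_biUnion] at hi
    push Not at hi
    have h1 := hi (k, l) (mem_univ _)
    simp only [hBd, mem_filter, mem_univ, true_and] at h1
    unfold m2 r2
    rw [div_eq_zero_iff]
    left
    rw [Nat.cast_eq_zero, card_eq_zero, filter_eq_empty_iff]
    rintro a _ ⟨h2, h3⟩
    apply h1
    have h4 := (hR _ (hu0 k l)).2.2 (emb PP i) ((a : ℤ) + (sh k : ℤ)) h2 (by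
      have : (a : ℤ) + (sh k : ℤ) + u k l = (a : ℤ) + (t : ℤ) + (sh l : ℤ) := by
        simp only [hu]; ring
      rw [this]
      exact h3)
    exact Int.natCast_dvd.1 h4
  · have h1 : ∑ i ∈ univ.biUnion Bd, gp f PP i ≤ ∑ kl : κ × κ, ∑ i ∈ Bd kl, gp f PP i := by
      have hg0 : ∀ i, 0 ≤ gp f PP i := fun i => div_nonneg (Nat.cast_nonneg _) (Nat.cast_nonneg _)
      calc ∑ i ∈ univ.biUnion Bd, gp f PP i ≤
            ∑ i ∈ univ.biUnion Bd, ∑ kl : κ × κ, (if i ∈ Bd kl then gp f PP i else 0) := by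
            apply sum_le_sum
            intro i hi
            rw [mem_biUnion] at hi
            obtain ⟨kl, h2, h3⟩ := hi
            have h4 := single_le_sum (f := fun kl : κ × κ => if i ∈ Bd kl then gp f PP i else 0)
              (fun kl _ => by
                show 0 ≤ if i ∈ Bd kl then gp f PP i else 0
                split_ifs
                · exact hg0 i
                · exact le_rfl) h2
            refine le_trans (le_of_eq ?_) h4
            show gp f PP i = if i ∈ Bd kl then gp f PP i else 0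
            rw [if_pos h3]
        _ = ∑ kl : κ × κ, ∑ i ∈ univ.biUnion Bd, (if i ∈ Bd kl then gp f PP i else 0) :=
            sum_comm
        _ ≤ ∑ kl : κ × κ, ∑ i ∈ Bd kl, gp f PP i := by
            apply sum_le_sum
            intro kl _
            rw [← sum_filter]
            apply sum_le_sum_of_subset_of_nonneg
            · intro i hi
              exact (mem_filter.1 hi).2
            · intro i _ _
              exact hg0 i
    have h2 : ∀ kl : κ × κ, ∑ i ∈ Bd kl, gp f PP i ≤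
        (2 * (Real.log K + D * Real.log (1 + 2 * Y))) * (Δ / w) := by
      intro kl
      have h3 : ∑ i ∈ Bd kl, gp f PP i ≤ ((Bd kl).card : ℝ) * (Δ / w) := by
        have : ∑ i ∈ Bd kl, gp f PP i ≤ ∑ i ∈ Bd kl, (Δ / w) := sum_le_sum fun i _ => hg i
        rw [sum_const, nsmul_eq_mul] at this
        exact this
      refine h3.trans ?_
      apply mul_le_mul_of_nonneg_right _ (by positivity)
      obtain ⟨e1, e2, -⟩ := hR _ (hu0 kl.1 kl.2)
      have h4 := card_dvd hP (R (u kl.1 kl.2)).natAbs (Int.natAbs_pos.2 e1)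
      refine h4.trans ?_
      apply mul_le_mul_of_nonneg_left _ (by norm_num)
      have e3 : (((R (u kl.1 kl.2)).natAbs : ℕ) : ℝ) = |((R (u kl.1 kl.2) : ℤ) : ℝ)| := by
        rw [Nat.cast_natAbs, Int.cast_abs]
      rw [e3]
      have e4 : 0 < |((R (u kl.1 kl.2) : ℤ) : ℝ)| := abs_pos.2 (by exact_mod_cast e1)
      have e5 : |((R (u kl.1 kl.2) : ℤ) : ℝ)| ≤ K * (1 + 2 * Y) ^ D := by
        refine e2.trans ?_
        apply mul_le_mul_of_nonneg_left _ (by linarith)
        apply pow_le_pow_left₀ (by positivity)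
        linarith [huY kl.1 kl.2]
      have e6 : (0 : ℝ) < 1 + 2 * Y := by positivity
      calc Real.log |((R (u kl.1 kl.2) : ℤ) : ℝ)| ≤ Real.log (K * (1 + 2 * Y) ^ D) :=
            Real.log_le_log e4 e5
        _ = Real.log K + D * Real.log (1 + 2 * Y) := by
            rw [Real.log_mul (by linarith) (by positivity), Real.log_pow]
    refine h1.trans ((sum_le_sum fun kl _ => h2 kl).trans (le_of_eq ?_))
    rw [sum_const, card_univ, Fintype.card_prod, nsmul_eq_mul]
    push_cast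
    ring

end Pool.Agent.K7.H60.PL
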