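import Pool.Agent.K7.H60.PL.TR
import Pool.Agent.K7.H60.SP.Coll
import Pool.Agent.K7.H60.SP.Choice

/-!
Counting with periodic conditions modulo primes; the pair law of the colours given by a polynomial.
-/

set_option autoImplicit false
set_option linter.unusedSectionVars false

namespace Pool.Agent.K7.H60.PL

open Finset Polynomial Pool.Agent.H256R2.SC Pool.Agent.K7.H60.TL Pool.Agent.H474R2.PG

open scoped Classical

/-- number of residues satisfying a periodic condition -/
noncomputable def nP {ι : Type} (q : ι → ℕ) (P : ι → ℤ → Prop) (i : ι) : ℕ :=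
  ((range (q i)).filter (fun a : ℕ => P i (a : ℤ))).card

/-- counting with periodic conditions -/
theorem count_per {ι : Type} [DecidableEq ι] (q : ι → ℕ) (P : ι → ℤ → Prop)
    (hper : ∀ i a b, (q i : ℤ) ∣ a - b → (P i a ↔ P i b)) (A B : ℤ) (hAB : A ≤ B) (W : ℕ)
    (hW : 1 ≤ W) (r : ℤ) (T : Finset ι) (hT : ∀ i ∈ T, (q i).Prime ∧ ¬ q i ∣ W)
    (hinj : ∀ i ∈ T, ∀ j ∈ T, q i = q j → i = j) :
    |(((Finset.Ioc A B).filter (fun a : ℤ => (W : ℤ) ∣ a - r ∧ ∀ i ∈ T, P i a)).card : ℝ) -
      ((B : ℝ) - A) / W * ∏ i ∈ T, (nP q P i : ℝ) / (q i : ℝ)| ≤ ∏ i ∈ T, (nP q P i : ℝ) := by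
  classical
  induction T using Finset.induction_on generalizing W r with
  | empty =>
    have h := Pool.Agent.H256R2.SC.count_ap A B hAB W hW r
    simpa using h
  | insert i₀ T hpT ih =>
    obtain ⟨p, hp0e⟩ : ∃ p, p = q i₀ := ⟨_, rfl⟩
    obtain ⟨hp, hpW⟩ := hT i₀ (Finset.mem_insert_self i₀ T)
    rw [← hp0e] at hp hpW
    have hp0 : (0 : ℤ) < (p : ℤ) := by exact_mod_cast hp.pos
    have hpR : (0 : ℝ) < (p : ℝ) := by exact_mod_cast hp.pos
    have hWR : (0 : ℝ) < (W : ℝ) := by exact_mod_cast hW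
    obtain ⟨Z, hZ⟩ : ∃ Z, Z = (Finset.range p).filter
        (fun a : ℕ => P i₀ (a : ℤ)) := ⟨_, rfl⟩
    have hZc : Z.card = nP q P i₀ := by rw [hZ, hp0e]; rfl
    have hcop : IsCoprime (W : ℤ) (p : ℤ) := by
      rw [Nat.isCoprime_iff_coprime]
      exact (Nat.Coprime.symm ((Nat.Prime.coprime_iff_not_dvd hp).2 hpW))
    -- the classes
    have hcrt : ∀ c : ℕ, ∃ rc : ℤ, (W : ℤ) ∣ rc - r ∧ (p : ℤ) ∣ rc - (c : ℤ) := by
      intro c
      obtain ⟨u, v, huv⟩ := hcop
      refine ⟨r * (v * p) + (c : ℤ) * (u * W), ?_, ?_⟩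
      · refine ⟨u * ((c : ℤ) - r), ?_⟩
        have : v * (p : ℤ) = 1 - u * W := by linarith
        rw [this]; ring
      · refine ⟨v * (r - (c : ℤ)), ?_⟩
        have : u * (W : ℤ) = 1 - v * p := by linarith
        rw [this]; ring
    choose rc hrc1 hrc2 using hcrt
    obtain ⟨E, hE⟩ : ∃ E, E = (Finset.Ioc A B).filter (fun a : ℤ => (W : ℤ) ∣ a - r ∧
        ∀ j ∈ insert i₀ T, P j a) := ⟨_, rfl⟩
    have hfib : E.card = ∑ c ∈ Z, ((Finset.Ioc A B).filter (fun a : ℤ =>
        ((W * p : ℕ) : ℤ) ∣ a - rc c ∧ ∀ j ∈ T, P j a)).card := by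
      have hmod : ∀ a : ℤ, (((a % (p : ℤ)).toNat : ℕ) : ℤ) = a % (p : ℤ) :=
        fun a => Int.toNat_of_nonneg (Int.emod_nonneg _ hp0.ne')
      have hdvd : ∀ a : ℤ, (p : ℤ) ∣ a - ((a % (p : ℤ)).toNat : ℕ) := by
        intro a
        rw [hmod]
        exact Int.dvd_self_sub_emod
      have hmaps : Set.MapsTo (fun a : ℤ => (a % (p : ℤ)).toNat) (E : Set ℤ)
          (Z : Set ℕ) := by
        intro a ha
        rw [Finset.mem_coe, hE, Finset.mem_filter] at ha
        rw [Finset.mem_coe, hZ, Finset.mem_filter, Finset.mem_range]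
        constructor
        · have h1 := Int.emod_lt_of_pos a hp0
          have h2 := hmod a
          show (a % (p : ℤ)).toNat < p
          omega
        · have h3 := ha.2.2 i₀ (Finset.mem_insert_self i₀ T)
          exact (hper i₀ _ _ (by rw [← hp0e]; exact hdvd a)).1 h3
      rw [Finset.card_eq_sum_card_fiberwise hmaps]
      refine Finset.sum_congr rfl (fun c hc => ?_)
      congr 1
      rw [hZ, Finset.mem_filter, Finset.mem_range] at hc
      ext a
      rw [hE, Finset.mem_filter, Finset.mem_filter, Finset.mem_filter]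
      constructor
      · rintro ⟨⟨h1, h2, h3⟩, h4⟩
        refine ⟨h1, ?_, fun q hq => h3 q (Finset.mem_insert_of_mem hq)⟩
        have h5 := hdvd a
        rw [h4] at h5
        have h6 : (p : ℤ) ∣ a - rc c := by
          have := dvd_sub h5 (hrc2 c)
          have e : a - (c : ℤ) - (rc c - (c : ℤ)) = a - rc c := by ring
          rwa [e] at this
        have h7 : (W : ℤ) ∣ a - rc c := by
          have := dvd_sub h2 (hrc1 c)
          have e : a - r - (rc c - r) = a - rc c := by ring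
          rwa [e] at this
        push_cast
        exact hcop.mul_dvd h7 h6
      · rintro ⟨h1, h2, h3⟩
        push_cast at h2
        have h7 : (W : ℤ) ∣ a - rc c := (Dvd.intro _ rfl).trans h2
        have h6 : (p : ℤ) ∣ a - rc c := (Dvd.intro_left _ rfl).trans h2
        have h5 : (p : ℤ) ∣ a - (c : ℤ) := by
          have := dvd_add h6 (hrc2 c)
          have e : a - rc c + (rc c - (c : ℤ)) = a - (c : ℤ) := by ring
          rwa [e] at this
        refine ⟨⟨h1, ?_, ?_⟩, ?_⟩
        · have := dvd_add h7 (hrc1 c)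
          have e : a - rc c + (rc c - r) = a - r := by ring
          rwa [e] at this
        · intro q hq
          rcases Finset.mem_insert.1 hq with rfl | hq
          · exact (hper q _ _ (by rw [← hp0e]; exact h5)).2 hc.2
          · exact h3 q hq
        · have h8 : a % (p : ℤ) = c := by
            have h10 : a % (p : ℤ) = (c : ℤ) % (p : ℤ) :=
              ((Int.modEq_iff_dvd.2 h5).symm)
            rw [h10]
            exact Int.emod_eq_of_lt (by omega) (by exact_mod_cast hc.1)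
          show (a % (p : ℤ)).toNat = c
          rw [h8]
          simp
    rw [← hE, hfib]
    have hWp : 1 ≤ W * p := Nat.mul_pos hW hp.pos
    have hT' : ∀ j ∈ T, (q j).Prime ∧ ¬ q j ∣ W * p := by
      intro j hj
      obtain ⟨h1, h2⟩ := hT j (Finset.mem_insert_of_mem hj)
      refine ⟨h1, fun h => ?_⟩
      rcases (Nat.Prime.dvd_mul h1).1 h with h | h
      · exact h2 h
      · have h3 := (Nat.prime_dvd_prime_iff_eq h1 hp).1 h
        rw [hp0e] at h3
        have h4 := hinj j (Finset.mem_insert_of_mem hj) i₀ (Finset.mem_insert_self i₀ T) h3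
        exact hpT (h4 ▸ hj)
    have hbd := fun c => ih (W * p) hWp (rc c) hT'
      (fun i hi j hj => hinj i (Finset.mem_insert_of_mem hi) j (Finset.mem_insert_of_mem hj))
    rw [Finset.prod_insert hpT, Finset.prod_insert hpT, ← hp0e]
    push_cast
    have e1 : ∑ c ∈ Z, (((Finset.Ioc A B).filter (fun a : ℤ =>
        ((W : ℤ) * p) ∣ a - rc c ∧ ∀ j ∈ T, P j a)).card : ℝ) -
        ((B : ℝ) - A) / W * ((nP q P i₀ : ℝ) / p * ∏ j ∈ T, (nP q P j : ℝ) / (q j : ℝ)) =
        ∑ c ∈ Z, ((((Finset.Ioc A B).filter (fun a : ℤ =>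
        ((W * p : ℕ) : ℤ) ∣ a - rc c ∧ ∀ j ∈ T, P j a)).card : ℝ) -
        ((B : ℝ) - A) / (W * p : ℕ) * ∏ j ∈ T, (nP q P j : ℝ) / (q j : ℝ)) := by
      rw [Finset.sum_sub_distrib, Finset.sum_const, hZc, nsmul_eq_mul]
      push_cast
      congr 1
      field_simp
    rw [e1]
    refine (Finset.abs_sum_le_sum_abs _ _).trans ?_
    refine (Finset.sum_le_sum (fun c _ => hbd c)).trans ?_
    rw [Finset.sum_const, hZc, nsmul_eq_mul]



end Pool.Agent.K7.H60.PL
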