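import Pool.Agent.K7.H60.PL.TR
import Pool.Agent.K7.H60.TL.Co3

/-!
The core with abstract data: almost every short interval contains an integer of the class at which
all colours are hit.
-/

set_option autoImplicit false
set_option linter.unusedSectionVars false

namespace Pool.Agent.K7.H60.PL

open Finset Pool.Agent.H256R2.SC Pool.Agent.K7.H60 Pool.Agent.K7.H60.TL

open scoped Classical

variable {dd : ℕ} {κ : Type} [Fintype κ] [DecidableEq κ]

/-- the weight -/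
noncomputable def Va (p g : Fin dd → ℝ) (h : Finset (Fin dd) → ℝ) (Q : ℝ) (col : ℕ → Col dd κ)
    (n : ℕ) : ℝ := VV g (yT p h Q) (col n)

/-- the data of the abstract core -/
structure AD (κ : Type) [Fintype κ] [DecidableEq κ] (p g : Fin dd → ℝ)
    (h : Finset (Fin dd) → ℝ) (z K C4 T0 Q δ β : ℝ) (X W b Y : ℕ) (col : ℕ → Col dd κ) :
    Prop where
  H : HB p g h z K C4 T0
  hz : ∀ i, p i ≤ z
  g1 : ∀ i, g i ≤ 1
  u10 : ∀ i, 10 * (Fintype.card κ : ℝ) * g i ≤ 1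
  tg : ∀ i, 3 * 3 * g i ≤ 1
  hX : 1 ≤ X
  W1 : 1 ≤ W
  hQ : 1 ≤ Q
  hs : 2 * (Fintype.card κ : ℝ) * ∑ i, 1 / (p i) ^ 2 ≤ 1
  hδ0 : 0 ≤ δ
  hδ : ∀ D : Col dd κ, qq p D ≤ Q → C4 * ∑ i with D i ≠ none, g i ≤ δ
  cnt1 : ∀ D : Col dd κ, |(((Sx X W b).filter (fun n => ∀ i, D i ≠ none → col n i = D i)).card : ℝ) -
    (X : ℝ) / W * nu g D| ≤ qq p D
  cnt2 : ∀ t : ℕ, W ≤ t → t ≤ Y → ∃ m : Fin dd → κ → κ → ℝ, (∀ i, Mt3 (g i) (m i)) ∧
    (∀ D D' : Col dd κ,
      |(((Sx X W b).filter (fun n => Ev D (col n) ∧ Ev D' (col (n + t)))).card : ℝ) -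
        (X : ℝ) / W * ∏ i, nu3 (g i) (m i) (D i) (D' i)| ≤ qq p D * qq p D') ∧
    ∃ bad : Finset (Fin dd), (∀ i, i ∉ bad → ∀ k l, m i k l = 0) ∧ ∑ i ∈ bad, g i ≤ β

section
variable {p g : Fin dd → ℝ} {h : Finset (Fin dd) → ℝ} {z K C4 T0 Q δ β : ℝ} {X W b Y : ℕ}
  {col : ℕ → Col dd κ}

theorem AD.g0 (d : AD κ p g h z K C4 T0 Q δ β X W b Y col) (i : Fin dd) : 0 ≤ g i :=
  (d.H.g0 i).le

theorem AD.ug (d : AD κ p g h z K C4 T0 Q δ β X W b Y col) (i : Fin dd) :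
    (Fintype.card κ : ℝ) * g i ≤ 1 := by
  have h1 := d.u10 i
  have h2 : 0 ≤ (Fintype.card κ : ℝ) * g i := mul_nonneg (Nat.cast_nonneg _) (d.g0 i)
  linarith

/-- transfer of one point functions -/
theorem AD.tr1 (d : AD κ p g h z K C4 T0 Q δ β X W b Y col) {Q' B : ℝ} {F : Col dd κ → ℝ}
    (hQ' : 0 ≤ Q') (hF : Lv p Q' B F) :
    |∑ n ∈ Sx X W b, F (col n) - (X : ℝ) / W * EE g F| ≤ Q' * B :=
  transfer (Sx X W b) col p g ((X : ℝ) / W) Q' Q' B hQ'
    (fun D hD => by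
      refine le_trans ?_ hD
      have h2 := d.cnt1 D
      convert h2) F hF

/-- the pair correlation over the integers -/
theorem AD.pair (d : AD κ p g h z K C4 T0 Q δ β X W b Y col) {t : ℕ} (ht : W ≤ t)
    (htY : t ≤ Y) :
    ∑ n ∈ Sx X W b, (Va p g h Q col n) ^ 2 * (Va p g h Q col (n + t)) ^ 2 ≤
      (X : ℝ) / W * (Real.exp (31 * (Fintype.card κ : ℝ) ^ 2 * ∑ i, (g i) ^ 2 +
        13 * (Fintype.card κ : ℝ) * ((Fintype.card κ : ℝ) + 1) ^ 2 * β) *
        (Zs κ g h * Zs κ g h)) + 81 * Q ^ 12 := by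
  obtain ⟨m, hm, hcnt, bad, hgood, hbad⟩ := d.cnt2 t ht htY
  have h1 := Lv_V2 (κ := κ) d.H d.g1 d.hs Q d.hQ
  have hQ0 : 0 ≤ Q := by linarith [d.hQ]
  have h2 := transfer2 (Sx X W b) col (fun n => col (n + t)) p
    (fun i => mu3 (g i) (m i)) ((X : ℝ) / W) (Q ^ 2 * Q ^ 2) (Q ^ 2) _ _ (by positivity)
    (by positivity)
    (fun D D' hD hD' => by
      rw [E2_ind3 g m]
      have h3 : qq p D * qq p D' ≤ Q ^ 2 * Q ^ 2 :=
        mul_le_mul hD hD' (zero_le_one.trans (qq_pos d.H D')) (by positivity)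
      exact (hcnt D D').trans h3) _ _ h1 h1
  have h3 := pair_bound3 d.H Q m hm d.u10 d.g1 bad hgood
  have h4 := (abs_le.1 h2).2
  have h5 : ∑ n ∈ Sx X W b, (Va p g h Q col n) ^ 2 * (Va p g h Q col (n + t)) ^ 2 ≤
      (X : ℝ) / W * E2 (fun i => mu3 (g i) (m i))
        (fun x x' => (VV g (yT p h Q : Col dd κ → ℝ) x) ^ 2 *
          (VV g (yT p h Q : Col dd κ → ℝ) x') ^ 2) + 81 * Q ^ 12 := by
    have e : Q ^ 2 * Q ^ 2 * (9 * Q ^ 4 * (9 * Q ^ 4)) = 81 * Q ^ 12 := by ring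
    rw [e] at h4
    unfold Va
    linarith
  refine h5.trans ?_
  have hXW : (0 : ℝ) ≤ (X : ℝ) / W := by positivity
  have hZT0 : 0 ≤ ZT κ p g h Q :=
    sum_nonneg fun D _ => mul_nonneg (nu_nonneg d.H.g0 D) (sq_nonneg _)
  have hZ := ZT_le (κ := κ) d.H Q
  have h6 : ZT κ p g h Q * ZT κ p g h Q ≤
      Zs κ g h * Zs κ g h := mul_le_mul hZ hZ hZT0 (hZT0.trans hZ)
  have h7 : Real.exp (31 * (Fintype.card κ : ℝ) ^ 2 * ∑ i, (g i) ^ 2 +
      13 * (Fintype.card κ : ℝ) * ((Fintype.card κ : ℝ) + 1) ^ 2 * ∑ i ∈ bad, g i) ≤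
      Real.exp (31 * (Fintype.card κ : ℝ) ^ 2 * ∑ i, (g i) ^ 2 +
        13 * (Fintype.card κ : ℝ) * ((Fintype.card κ : ℝ) + 1) ^ 2 * β) := by
    apply Real.exp_le_exp.mpr
    have := mul_le_mul_of_nonneg_left hbad
      (by positivity : 0 ≤ 13 * (Fintype.card κ : ℝ) * ((Fintype.card κ : ℝ) + 1) ^ 2)
    linarith
  have h8 := h3.trans (mul_le_mul h7 h6 (mul_nonneg hZT0 hZT0) (Real.exp_pos _).le)
  have h9 := mul_le_mul_of_nonneg_left h8 hXW
  linarith

theorem AD.core (d : AD κ p g h z K C4 T0 Q δ β X W b Y col) {J J1 R : ℕ} {s lam : ℝ}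
    (hJ : Even J) (hJ1 : J ≤ J1 + 1) (hs0 : 0 < s) (hs1 : s ≤ 1)
    (hY : Y ≤ X) (hY0 : 0 < Y) (hT0 : 1 < T0) (hR : Q < T0 ^ (R + 1)) (hlam : 1 ≤ lam)
    (hlam2 : (Fintype.card κ : ℝ) * (2 ^ J1 * C4) ≤ lam)
    (c1 : (Fintype.card κ : ℝ) * δ ≤ s / 8)
    (c2 : Real.exp (2 * (Fintype.card κ : ℝ) * K / Real.log z - Real.log (Q / z) / Real.log z) ≤
      s / 8)
    (c3 : ((Fintype.card κ : ℝ) + 1) * (Q ^ 2 * z ^ J * (9 * Q ^ 4 * ((dd : ℝ) + 1) ^ J)) ≤
      s / 8 * ((X : ℝ) / W))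
    (c4 : (Fintype.card κ : ℝ) * ((1 / 3) ^ J * Real.exp (20 * ∑ i, g i)) ≤
      s / 8 * ((J1 + 1).choose J : ℝ))
    (c5 : (Fintype.card κ : ℝ) * (δ ^ 2 +
      Real.exp (2 * (Fintype.card κ : ℝ) * K / Real.log z - Real.log (Q / z) / Real.log z) +
      (1 / 3) ^ J * Real.exp (20 * ∑ i, g i)) ≤ s / 2)
    (c6 : Real.exp (31 * (Fintype.card κ : ℝ) ^ 2 * ∑ i, (g i) ^ 2 +
        13 * (Fintype.card κ : ℝ) * ((Fintype.card κ : ℝ) + 1) ^ 2 * β) ≤ 1 + s / 2)
    (c7 : 81 * Q ^ 12 ≤ s / 2 * ((X : ℝ) / W))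
    (c8 : 4 * (W : ℝ) / Y + (1 + 2 * W) * (18 * lam ^ (2 * R)) / Y + (Y : ℝ) / X ≤ s) :
    (((Ico X (2 * X)).filter (fun x => ¬ ∃ n, n ∈ Sx X W b ∧ x < n ∧ n ≤ x + Y ∧
      ∀ k, ∃ i, col n i = some k)).card : ℝ) ≤ 21 * s * X := by
  set u : ℝ := (Fintype.card κ : ℝ) with hudef
  have hu0 : 0 ≤ u := Nat.cast_nonneg _
  set E : ℝ := Real.exp (2 * u * K / Real.log z - Real.log (Q / z) / Real.log z) with hE
  have hE0 : 0 < E := Real.exp_pos _
  set G : ℝ := ∑ i, g i with hG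
  set τ : ℝ := (1 / 3) ^ J * Real.exp (20 * G) with hτ
  have hτ0 : 0 ≤ τ := by positivity
  set Z : ℝ := Zs κ g h with hZ
  have hZ1 : 1 ≤ Z := Zs_ge_one d.H
  have hZ0 : 0 < Z := by linarith
  have hQ0 : 0 < Q := by linarith [d.hQ]
  have hz0 : 0 < z := by linarith [d.H.z1]
  have hX0 : 0 < X := by have := d.hX; omega
  have hW0 : 0 < W := by have := d.W1; omega
  have hXr : (0 : ℝ) < X := by exact_mod_cast hX0
  have hWr : (0 : ℝ) < W := by exact_mod_cast hW0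
  have hYr : (0 : ℝ) < Y := by exact_mod_cast hY0
  set Ω : ℝ := (X : ℝ) / W with hΩ
  have hΩ0 : 0 < Ω := by rw [hΩ]; positivity
  have hp1 : ∀ i, 1 ≤ p i := fun i => (d.H.p1 i).le
  set nn : ℝ := Q ^ 2 * z ^ J * (9 * Q ^ 4 * ((dd : ℝ) + 1) ^ J) with hnn
  have hzJ1 : (1 : ℝ) ≤ z ^ J := one_le_pow₀ d.H.z1.le
  have hnJ : (1 : ℝ) ≤ ((dd : ℝ) + 1) ^ J := by
    apply one_le_pow₀
    have : (0 : ℝ) ≤ dd := Nat.cast_nonneg _
    linarith
  have hnn1 : Q ^ 2 * (9 * Q ^ 4) ≤ nn := by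
    rw [hnn]
    apply mul_le_mul
    · exact le_mul_of_one_le_right (by positivity) hzJ1
    · exact le_mul_of_one_le_right (by positivity) hnJ
    · positivity
    · positivity
  have hnn0 : 0 ≤ nn := (by positivity : (0 : ℝ) ≤ Q ^ 2 * (9 * Q ^ 4)).trans hnn1
  have c3a : nn ≤ s / 8 * Ω := by nlinarith
  have c3b : u * nn ≤ s / 8 * Ω := by nlinarith
  set V : ℕ → ℝ := Va p g h Q col with hV
  set S : Finset ℕ := Sx X W b with hS
  -- model quantities
  have hT : ∑ D : Col dd κ with Q / z < qq p D, (yy h D) ^ 2 * nu g D ≤ E * Z :=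
    tail_bound d.H (Q / z) (by positivity)
  have uδ1 : u * δ ≤ 1 := by linarith
  have B1 := second_lower d.H Q δ (E * Z) d.ug d.hδ uδ1 d.hδ0 hQ0 hT
  have B2 := (EV_le d.H Q d.ug).trans (ZT_le d.H Q)
  have e20 : (2 + 6 * 3 : ℝ) = 20 := by norm_num
  have B3 : ∀ k : κ, EE g (fun x => (VV g (yT p h Q : Col dd κ → ℝ) x) ^ 2 *
      Bn J k x) ≤ τ * Z := by
    intro k
    have := bn_upper d.H Q 3 J (by norm_num) d.tg d.ug k
    rw [e20] at this
    refine this.trans (le_of_eq ?_)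
    rw [hτ]
    ring
  have B4 : ∀ k : κ, EE g (fun x => (VV g (yT p h Q : Col dd κ → ℝ) x) ^ 2 *
      SS J k x) ≤ (δ ^ 2 + E + τ) * Z := by
    intro k
    have := second_upper d.H Q δ 3 (E * Z) J hJ (by norm_num) d.tg d.ug hQ0 d.hδ hT k
    rw [e20] at this
    refine this.trans (le_of_eq ?_)
    rw [hτ]
    ring
  -- integer sums
  have A1 := d.tr1 (by positivity) (Lv_V2 (κ := κ) d.H d.g1 d.hs Q d.hQ)
  have A1' : |∑ n ∈ S, V n ^ 2 - Ω * EE g
      (fun x => (VV g (yT p h Q : Col dd κ → ℝ) x) ^ 2)| ≤ Q ^ 2 * (9 * Q ^ 4) := A1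
  have A2 : ∀ k : κ, |∑ n ∈ S, V n ^ 2 * Bn J k (col n) - Ω * EE g
      (fun x => (VV g (yT p h Q : Col dd κ → ℝ) x) ^ 2 * Bn J k x)| ≤ nn :=
    fun k => d.tr1 (by positivity) (Lv_V2F d.H d.g1 d.hs Q d.hQ (Lv_Bn p hp1 z
      d.hz J k))
  have A3 : ∀ k : κ, |∑ n ∈ S, V n ^ 2 * SS J k (col n) - Ω * EE g
      (fun x => (VV g (yT p h Q : Col dd κ → ℝ) x) ^ 2 * SS J k x)| ≤ nn :=
    fun k => d.tr1 (by positivity) (Lv_V2F d.H d.g1 d.hs Q d.hQ (Lv_SS p hp1 z
      d.hz d.H.z1.le J k))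
  have D1 : Ω * Z * (1 - s / 4 - s / 8) ≤ ∑ n ∈ S, V n ^ 2 := by
    have h1 := (abs_le.1 A1').1
    have h2 := mul_le_mul_of_nonneg_left B1 hΩ0.le
    have h3 : Ω * ((1 - u * δ) * Z - E * Z) = Ω * Z * (1 - u * δ - E) := by ring
    have h4 : Ω * Z * (1 - s / 8 - s / 8) ≤ Ω * Z * (1 - u * δ - E) :=
      mul_le_mul_of_nonneg_left (by linarith) (by positivity)
    have h5 : s / 8 * Ω ≤ s / 8 * (Ω * Z) := by
      apply mul_le_mul_of_nonneg_left _ (by positivity)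
      exact le_mul_of_one_le_right hΩ0.le hZ1
    linarith
  have D2 : ∑ n ∈ S, V n ^ 2 ≤ 2 * (Ω * Z) := by
    have h1 := (abs_le.1 A1').2
    have h2 := mul_le_mul_of_nonneg_left B2 hΩ0.le
    have h5 : s / 8 * Ω ≤ 1 * (Ω * Z) := by
      apply mul_le_mul (by linarith) _ hΩ0.le (by norm_num)
      exact le_mul_of_one_le_right hΩ0.le hZ1
    linarith
  have D3 : ∀ k : κ, ∑ n ∈ S, V n ^ 2 * Bn J k (col n) ≤ Ω * (τ * Z) + nn := by
    intro k
    have h1 := (abs_le.1 (A2 k)).2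
    have h2 := mul_le_mul_of_nonneg_left (B3 k) hΩ0.le
    linarith
  have D4 : ∀ k : κ, ∑ n ∈ S, V n ^ 2 * SS J k (col n) ≤
      Ω * ((δ ^ 2 + E + τ) * Z) + nn := by
    intro k
    have h1 := (abs_le.1 (A3 k)).2
    have h2 := mul_le_mul_of_nonneg_left (B4 k) hΩ0.le
    linarith
  -- good points
  set good : ℕ → Prop := fun n => ∀ k, (hits k (col n)).card ≤ J1 with hgood
  set Ch : ℝ := ((J1 + 1).choose J : ℝ) with hCh
  have hCh1 : 1 ≤ Ch := by
    have : 1 ≤ (J1 + 1).choose J := Nat.succ_le_of_lt (Nat.choose_pos hJ1)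
    rw [hCh]
    exact_mod_cast this
  have D5 : ∑ n ∈ S with ¬ good n, V n ^ 2 ≤ s / 4 * (Ω * Z) := by
    have h1 : ∀ n ∈ S.filter (fun n => ¬ good n), Ch * V n ^ 2 ≤
        ∑ k, V n ^ 2 * Bn J k (col n) := by
      intro n hn
      rw [mem_filter] at hn
      have h2 := hn.2
      simp only [hgood] at h2
      push Not at h2
      obtain ⟨k, hk⟩ := h2
      have h3 : Ch ≤ Bn J k (col n) := by
        unfold Bn
        rw [hCh]
        exact_mod_cast Nat.choose_le_choose J hk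
      calc Ch * V n ^ 2 ≤ Bn J k (col n) * V n ^ 2 :=
            mul_le_mul_of_nonneg_right h3 (sq_nonneg _)
        _ = V n ^ 2 * Bn J k (col n) := by ring
        _ ≤ _ := single_le_sum (f := fun k => V n ^ 2 * Bn J k (col n))
            (fun k _ => mul_nonneg (sq_nonneg _) (Bn_nonneg _ _ _)) (mem_univ k)
    have h4 : Ch * ∑ n ∈ S with ¬ good n, V n ^ 2 ≤ u * (Ω * (τ * Z) + nn) := by
      rw [mul_sum]
      refine (sum_le_sum h1).trans ?_
      refine (sum_le_sum_of_subset_of_nonneg (filter_subset _ _) fun n _ _ =>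
        sum_nonneg fun k _ => mul_nonneg (sq_nonneg _) (Bn_nonneg _ _ _)).trans ?_
      rw [sum_comm]
      refine (sum_le_sum fun k _ => D3 k).trans ?_
      rw [sum_const, card_univ, nsmul_eq_mul]
    have h5 : u * (Ω * (τ * Z) + nn) ≤ Ch * (s / 4 * (Ω * Z)) := by
      have h6 : u * (Ω * (τ * Z)) ≤ s / 8 * Ch * (Ω * Z) := by
        calc u * (Ω * (τ * Z)) = (u * τ) * (Ω * Z) := by ring
          _ ≤ s / 8 * Ch * (Ω * Z) := mul_le_mul_of_nonneg_right c4 (by positivity)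
      have h7 : u * nn ≤ s / 8 * Ch * (Ω * Z) := by
        refine c3b.trans ?_
        calc s / 8 * Ω = s / 8 * 1 * (Ω * 1) := by ring
          _ ≤ s / 8 * Ch * (Ω * Z) := by
              apply mul_le_mul
              · exact mul_le_mul_of_nonneg_left hCh1 (by positivity)
              · exact mul_le_mul_of_nonneg_left hZ1 hΩ0.le
              · positivity
              · positivity
      linarith
    have h6 := h4.trans h5
    exact le_of_mul_le_mul_left h6 (by linarith)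
  -- the weights
  set f : ℕ → ℝ := fun n => if good n then |V n| / Real.sqrt Z else 0 with hf
  have hf2 : ∀ n, f n ^ 2 = if good n then V n ^ 2 / Z else 0 := by
    intro n
    simp only [hf]
    split_ifs
    · rw [div_pow, sq_abs, Real.sq_sqrt hZ0.le]
    · norm_num
  have hf2le : ∀ n, f n ^ 2 ≤ V n ^ 2 / Z := by
    intro n
    rw [hf2]
    split_ifs
    · exact le_rfl
    · positivity
  have hsum2 : ∑ n ∈ S, f n ^ 2 ≤ 2 * Ω := by
    calc ∑ n ∈ S, f n ^ 2 ≤ ∑ n ∈ S, V n ^ 2 / Z := sum_le_sum fun n _ => hf2le n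
      _ = (∑ n ∈ S, V n ^ 2) / Z := by rw [sum_div]
      _ ≤ 2 * (Ω * Z) / Z := div_le_div_of_nonneg_right D2 hZ0.le
      _ = 2 * Ω := by field_simp
  set M₀ : ℝ := 9 * lam ^ (2 * R) with hM₀
  have hlam0 : 0 < lam := by linarith
  have hM0 : 0 < M₀ := by rw [hM₀]; positivity
  have hfM : ∀ n, f n ^ 2 ≤ M₀ := by
    intro n
    rw [hf2]
    split_ifs with hg
    · have h1 := V_le d.H hT0 Q R J1 hR lam hlam d.g1 hlam2 (col n) hg
      have h2 : V n ^ 2 ≤ M₀ := by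
        rw [hM₀, ← sq_abs]
        calc |V n| ^ 2 ≤ (3 * lam ^ R) ^ 2 := pow_le_pow_left₀ (abs_nonneg _) h1 2
          _ = 9 * lam ^ (2 * R) := by ring
      have h3 : V n ^ 2 / Z ≤ V n ^ 2 := div_le_self (sq_nonneg _) hZ1
      linarith
    · exact hM0.le
  set Np : ℕ → ℕ := fun n => (univ.filter (fun k : κ => ∀ i, col n i ≠ some k)).card with hNp
  -- apply the local lemma
  have hloc := Loc.loc (S := S) (X := X) (Y := Y) (W := W) (b := b) (H := 0) (V := f) (Np := Np)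
    (M := 1) (s := s) (C := 2 * M₀) (ρ := s) (ε := s) (Ω := Ω)
    (filter_subset _ _) (fun n hn => (mem_filter.1 hn).2) hW0 hY0 hY le_rfl hs0.le hs1
    (by positivity) hs0 rfl
    (by
      -- first moment
      have h1 : ∑ n ∈ S, f n ^ 2 = (∑ n ∈ S, V n ^ 2 - ∑ n ∈ S with ¬ good n, V n ^ 2) / Z := by
        have h2 : ∑ n ∈ S, V n ^ 2 = ∑ n ∈ S with good n, V n ^ 2 +
            ∑ n ∈ S with ¬ good n, V n ^ 2 := by
          rw [sum_filter_add_sum_filter_not]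
        rw [h2, add_sub_cancel_right, sum_div, sum_filter]
        exact sum_congr rfl fun n _ => hf2 n
      rw [h1, le_div_iff₀ hZ0]
      have h3 : Ω * (1 - s) * Z ≤ Ω * Z * (1 - s / 4 - s / 8) - s / 4 * (Ω * Z) := by
        have : Ω * Z * (1 - s / 4 - s / 8) - s / 4 * (Ω * Z) - Ω * (1 - s) * Z =
            Ω * Z * (3 * s / 8) := by ring
        have h4 : 0 ≤ Ω * Z * (3 * s / 8) := by positivity
        linarith
      linarith)
    (by
      -- unhit colours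
      have h1 : ∀ n ∈ S, f n ^ 2 * (Np n : ℝ) ≤ (∑ k, V n ^ 2 * SS J k (col n)) / Z := by
        intro n _
        have h2 : (Np n : ℝ) ≤ ∑ k, SS J k (col n) := by
          have h3 : (Np n : ℝ) = ∑ k : κ, (if ∀ i, col n i ≠ some k then (1 : ℝ) else 0) := by
            simp only [hNp]
            rw [← sum_filter, sum_const, nsmul_eq_mul, mul_one]
          rw [h3]
          exact sum_le_sum fun k _ => SS_lower J hJ k _
        calc f n ^ 2 * (Np n : ℝ) ≤ V n ^ 2 / Z * ∑ k, SS J k (col n) :=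
              mul_le_mul (hf2le n) h2 (Nat.cast_nonneg _) (by positivity)
          _ = _ := by rw [← mul_sum]; ring
      refine (sum_le_sum h1).trans ?_
      rw [← sum_div, sum_comm, div_le_iff₀ hZ0]
      refine (sum_le_sum fun k _ => D4 k).trans ?_
      rw [sum_const, card_univ, nsmul_eq_mul]
      have h3 : u * (Ω * ((δ ^ 2 + E + τ) * Z)) ≤ s / 2 * (Ω * Z) := by
        calc u * (Ω * ((δ ^ 2 + E + τ) * Z)) = (u * (δ ^ 2 + E + τ)) * (Ω * Z) := by ring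
          _ ≤ s / 2 * (Ω * Z) := mul_le_mul_of_nonneg_right c5 (by positivity)
      have h4 : u * nn ≤ s / 8 * (Ω * Z) := by
        refine c3b.trans ?_
        apply mul_le_mul_of_nonneg_left _ (by positivity)
        exact le_mul_of_one_le_right hΩ0.le hZ1
      have h5 : s * (Ω * 1) * Z = s * (Ω * Z) := by ring
      rw [h5]
      have h6 : 0 ≤ s * (Ω * Z) := by positivity
      linarith)
    (by
      -- fourth moment
      calc ∑ n ∈ S, f n ^ 4 = ∑ n ∈ S, f n ^ 2 * f n ^ 2 := sum_congr rfl fun n _ => by ring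
        _ ≤ ∑ n ∈ S, M₀ * f n ^ 2 := sum_le_sum fun n _ =>
            mul_le_mul_of_nonneg_right (hfM n) (sq_nonneg _)
        _ = M₀ * ∑ n ∈ S, f n ^ 2 := by rw [mul_sum]
        _ ≤ M₀ * (2 * Ω) := mul_le_mul_of_nonneg_left hsum2 hM0.le
        _ = 2 * M₀ * Ω := by ring)
    (by
      -- correlations
      intro t ht0 htY
      by_cases hWt : W ∣ t
      · have hWt' : W ≤ t := Nat.le_of_dvd ht0 hWt
        have h1 := d.pair hWt' htY
        have h2 : Loc.cor S (fun n => f n ^ 2) t ≤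
            (∑ n ∈ S, V n ^ 2 * V (n + t) ^ 2) / (Z * Z) := by
          unfold Loc.cor
          rw [sum_div]
          apply sum_le_sum
          intro n _
          have h3 : Loc.ez S (fun n => f n ^ 2) (n + t) ≤ V (n + t) ^ 2 / Z := by
            unfold Loc.ez
            split_ifs
            · exact hf2le _
            · positivity
          have h4 : 0 ≤ Loc.ez S (fun n => f n ^ 2) (n + t) :=
            Loc.ez_nonneg (fun n _ => sq_nonneg _) _
          calc f n ^ 2 * Loc.ez S (fun n => f n ^ 2) (n + t) ≤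
                V n ^ 2 / Z * (V (n + t) ^ 2 / Z) := mul_le_mul (hf2le n) h3 h4 (by positivity)
            _ = _ := by rw [div_mul_div_comm]
        refine h2.trans ?_
        rw [div_le_iff₀ (by positivity)]
        refine h1.trans ?_
        have h5 : (X : ℝ) / W * (Real.exp (31 * u ^ 2 * ∑ i, (g i) ^ 2 +
            13 * u * (u + 1) ^ 2 * β) * (Z * Z)) ≤
            Ω * ((1 + s / 2) * (Z * Z)) := by
          apply mul_le_mul_of_nonneg_left _ hΩ0.le
          exact mul_le_mul_of_nonneg_right c6 (by positivity)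
        have h6 : 81 * Q ^ 12 ≤ s / 2 * (Ω * (Z * Z)) := by
          refine c7.trans ?_
          apply mul_le_mul_of_nonneg_left _ (by positivity)
          apply le_mul_of_one_le_right hΩ0.le
          nlinarith
        have h7 : Ω * ((1 : ℝ) ^ 2 + s) * (Z * Z) =
            Ω * ((1 + s / 2) * (Z * Z)) + s / 2 * (Ω * (Z * Z)) := by ring
        rw [h7]
        exact add_le_add h5 h6
      · have h1 : Loc.cor S (fun n => f n ^ 2) t = 0 :=
          Loc.cor_zero (W := W) (b := b) (fun n hn => (mem_filter.1 hn).2) hWt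
        rw [h1]
        positivity)
    (by
      refine le_trans (le_of_eq ?_) c8
      rw [hM₀]
      push_cast
      ring)
  refine le_trans ?_ (hloc.trans (le_of_eq (by ring)))
  have hsub : (Ico X (2 * X)).filter (fun x => ¬ ∃ n, n ∈ S ∧ x < n ∧ n ≤ x + Y ∧
      ∀ k, ∃ i, col n i = some k) ⊆
      (Ico X (2 * X)).filter (fun x => ((S.filter (fun n => (x < n ∧ n ≤ x + Y) ∧
        Np n = 0)).card : ℝ) < s / (16 * (2 * M₀)) * ((Y : ℝ) / W)) := by
    intro x hx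
    rw [mem_filter] at hx ⊢
    refine ⟨hx.1, ?_⟩
    have h1 : S.filter (fun n => (x < n ∧ n ≤ x + Y) ∧ Np n = 0) = ∅ := by
      rw [filter_eq_empty_iff]
      rintro n hn ⟨⟨h2, h3⟩, h4⟩
      apply hx.2
      refine ⟨n, hn, h2, h3, fun k => ?_⟩
      simp only [hNp] at h4
      rw [card_eq_zero, filter_eq_empty_iff] at h4
      have h5 := h4 (mem_univ k)
      push Not at h5
      exact h5
    rw [h1, card_empty, Nat.cast_zero]
    positivity
  exact_mod_cast card_le_card hsub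

end

end Pool.Agent.K7.H60.PL
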