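import Pool.Agent.K7.H60.TL.EnA

/-!
The engine for polynomials: numerical inequalities.
-/

set_option autoImplicit false
set_option linter.unusedSectionVars false

namespace Pool.Agent.K7.H60.PL

open Finset Filter Pool.Agent.H256R2.SC Pool.Agent.K7.H60.TL

open scoped Classical

variable {A : ℕ} {B D C4 CM ε0 K₀ c C5 C7 L l : ℝ}

theorem q3f (N : Num A B D C4 CM ε0 K₀ c C5 C7 L l) {u q q' Ω : ℝ} (hu0 : 0 ≤ u)
    (hu : u + 1 ≤ L) (hq : q ≤ Real.exp (L / 300)) (hq0 : 0 ≤ q)
    (hq' : q' ≤ Real.exp (L / 300)) (hq0' : 0 ≤ q')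
    (hΩ : Real.exp (L / 2) ≤ Ω) :
    (u + 1) * (Real.exp (L / 40) ^ 2 * q' * (9 * Real.exp (L / 40) ^ 4 * q)) ≤
      1 / L ^ (A + 1) / 8 * Ω := by
  have h1 := N.L_le
  have h2 := N.s_ge
  have hL := N.hL
  have e4 : Real.exp (L / 40) ^ 4 = Real.exp (L / 10) := by
    rw [← Real.exp_nat_mul]; congr 1; push_cast; ring
  have e2 : Real.exp (L / 40) ^ 2 = Real.exp (L / 20) := by
    rw [← Real.exp_nat_mul]; congr 1; push_cast; ring
  rw [e4, e2]
  calc (u + 1) * (Real.exp (L / 20) * q' * (9 * Real.exp (L / 10) * q)) ≤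
        Real.exp (L / 1000) * (Real.exp (L / 20) * Real.exp (L / 300) *
          (9 * Real.exp (L / 10) * Real.exp (L / 300))) := by
        apply mul_le_mul (hu.trans h1) _ (by positivity) (Real.exp_pos _).le
        apply mul_le_mul _ _ (by positivity) (by positivity)
        · exact mul_le_mul_of_nonneg_left hq' (by positivity)
        · exact mul_le_mul_of_nonneg_left hq (by positivity)
    _ = 9 * Real.exp (L / 1000 + L / 20 + L / 300 + L / 10 + L / 300) := by
        rw [Real.exp_add, Real.exp_add, Real.exp_add, Real.exp_add]; ring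
    _ ≤ 1 / 8 * Real.exp (-(L / 1000) + L / 2) := by
        set E := L / 1000 + L / 20 + L / 300 + L / 10 + L / 300 with hE
        have e1 : Real.exp (-(L / 1000) + L / 2) =
            Real.exp E * Real.exp (-(L / 1000) + L / 2 - E) := by
          rw [← Real.exp_add]; congr 1; ring
        have e2 : 72 ≤ Real.exp (-(L / 1000) + L / 2 - E) := by
          have := Real.add_one_le_exp (-(L / 1000) + L / 2 - E)
          have := N.Lbig
          rw [hE] at *
          linarith
        rw [e1]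
        have e3 := Real.exp_pos E
        nlinarith
    _ = Real.exp (-(L / 1000)) / 8 * Real.exp (L / 2) := by
        rw [Real.exp_add]; ring
    _ ≤ _ := by
        apply mul_le_mul _ hΩ (Real.exp_pos _).le
        · have := N.s_pos
          positivity
        · linarith

theorem q7f (N : Num A B D C4 CM ε0 K₀ c C5 C7 L l) {Ω : ℝ} (hΩ : Real.exp (L / 2) ≤ Ω) :
    81 * Real.exp (L / 40) ^ 12 ≤ 1 / L ^ (A + 1) / 2 * Ω := by
  have h2 := N.s_ge
  have hL := N.hL
  have e4 : Real.exp (L / 40) ^ 12 = Real.exp (3 * L / 10) := by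
    rw [← Real.exp_nat_mul]; congr 1; push_cast; ring
  rw [e4]
  calc 81 * Real.exp (3 * L / 10) ≤ 1 / 2 * Real.exp (-(L / 1000) + L / 2) := by
        have e1 : Real.exp (-(L / 1000) + L / 2) =
            Real.exp (3 * L / 10) * Real.exp (-(L / 1000) + L / 2 - 3 * L / 10) := by
          rw [← Real.exp_add]; congr 1; ring
        have e2 : 162 ≤ Real.exp (-(L / 1000) + L / 2 - 3 * L / 10) := by
          have := Real.add_one_le_exp (-(L / 1000) + L / 2 - 3 * L / 10)
          have := N.Lbig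
          linarith
        rw [e1]
        have e3 := Real.exp_pos (3 * L / 10)
        nlinarith
    _ = Real.exp (-(L / 1000)) / 2 * Real.exp (L / 2) := by
        rw [Real.exp_add]; ring
    _ ≤ _ := by
        apply mul_le_mul _ hΩ (Real.exp_pos _).le
        · have := N.s_pos
          positivity
        · linarith

/-- the pair correlation -/
theorem q6f (N : Num A B D C4 CM ε0 K₀ c C5 C7 L l) {u S2 β : ℝ} (hu0 : 0 ≤ u)
    (hu : u + 1 ≤ L) (hS0 : 0 ≤ S2) (hS : S2 ≤ L ^ 2 / L ^ (A + 10)) (hβ0 : 0 ≤ β)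
    (hβ : β ≤ L ^ 4 / L ^ (A + 10)) :
    Real.exp (31 * u ^ 2 * S2 + 13 * u * (u + 1) ^ 2 * β) ≤
      1 + 1 / L ^ (A + 1) / 2 := by
  have hL := N.hL
  have hLb := N.Lbig
  have hs := N.s_pos
  have hs1 := N.s_le
  set s := 1 / L ^ (A + 1) with hsdef
  have hwp : 0 < L ^ (A + 10) := pow_pos hL _
  have hw : ∀ j : ℕ, L ^ j / L ^ (A + 10) = s * (L ^ j / L ^ 9) := by
    intro j
    rw [hsdef, show A + 10 = (A + 1) + 9 by ring, pow_add]
    field_simp
  rw [hw] at hS hβ
  have hul : u ≤ L := by linarith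
  have h1 : 31 * u ^ 2 * S2 ≤ 31 * L ^ 2 * (s * (L ^ 2 / L ^ 9)) := by
    have e1 : u ^ 2 ≤ L ^ 2 := pow_le_pow_left₀ hu0 hul 2
    exact mul_le_mul (by linarith) hS hS0 (by positivity)
  have h2 : 13 * u * (u + 1) ^ 2 * β ≤ 13 * L * L ^ 2 * (s * (L ^ 4 / L ^ 9)) := by
    have e2 : (u + 1) ^ 2 ≤ L ^ 2 := pow_le_pow_left₀ (by linarith) hu 2
    have e4 : 13 * u * (u + 1) ^ 2 ≤ 13 * L * L ^ 2 :=
      mul_le_mul (by linarith) e2 (by positivity) (by positivity)
    exact mul_le_mul e4 hβ hβ0 (by positivity)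
  have h3 : 31 * L ^ 2 * (s * (L ^ 2 / L ^ 9)) ≤ s / 8 := by
    have e1 : 31 * L ^ 2 * (s * (L ^ 2 / L ^ 9)) = s * (31 / L ^ 5) := by
      field_simp
    have e2 : 31 / L ^ 5 ≤ 1 / 8 := by
      rw [div_le_div_iff₀ (by positivity) (by norm_num)]
      have e3 : L ≤ L ^ 5 := le_self_pow₀ (by linarith) (by norm_num)
      linarith
    rw [e1]
    have := mul_le_mul_of_nonneg_left e2 hs.le
    linarith
  have h4 : 13 * L * L ^ 2 * (s * (L ^ 4 / L ^ 9)) ≤ s / 8 := by
    have e1 : 13 * L * L ^ 2 * (s * (L ^ 4 / L ^ 9)) = s * (13 / L ^ 2) := by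
      field_simp
    have e2 : 13 / L ^ 2 ≤ 1 / 8 := by
      rw [div_le_div_iff₀ (by positivity) (by norm_num)]
      have e3 : L ≤ L ^ 2 := le_self_pow₀ (by linarith) (by norm_num)
      linarith
    rw [e1]
    have := mul_le_mul_of_nonneg_left e2 hs.le
    linarith
  set x := 31 * u ^ 2 * S2 + 13 * u * (u + 1) ^ 2 * β with hx
  have hx0 : 0 ≤ x := by rw [hx]; positivity
  have hx1 : x ≤ s / 4 := by linarith
  have habs := Real.abs_exp_sub_one_le (x := x) (by rw [abs_of_nonneg hx0]; linarith)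
  rw [abs_of_nonneg hx0] at habs
  have := (le_abs_self _).trans habs
  linarith

end Pool.Agent.K7.H60.PL
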