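import Pool.Agent.K7.H60.TL.LQ

/-!
Local laws of pairs of colours with arbitrary joint probabilities.
-/

set_option autoImplicit false
set_option linter.unusedSectionVars false

namespace Pool.Agent.K7.H60.PL

open Finset Pool.Agent.H256R2.SC Pool.Agent.K7.H60.TL

open scoped Classical

variable {κ : Type} [Fintype κ] [DecidableEq κ]

/-- the local law of the pair of colours; `m k l` is the probability of the pair `(k, l)` -/
noncomputable def mu3 (g : ℝ) (m : κ → κ → ℝ) (c : Option κ × Option κ) : ℝ :=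
  match c with
  | (none, none) => 1 - 2 * (Fintype.card κ : ℝ) * g + ∑ k, ∑ l, m k l
  | (some k, none) => g - ∑ l, m k l
  | (none, some l) => g - ∑ k, m k l
  | (some k, some l) => m k l

/-- joint probabilities compatible with the marginals `g` -/
structure Mt3 (g : ℝ) (m : κ → κ → ℝ) : Prop where
  m0 : ∀ k l, 0 ≤ m k l
  row : ∀ k, ∑ l, m k l ≤ g
  col : ∀ l, ∑ k, m k l ≤ g

theorem mu3_nonneg {g : ℝ} {m : κ → κ → ℝ} (hm : Mt3 g m)
    (h : 2 * (Fintype.card κ : ℝ) * g ≤ 1) (c : Option κ × Option κ) : 0 ≤ mu3 g m c := by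
  obtain ⟨a, b⟩ := c
  cases a with
  | none =>
    cases b with
    | none =>
      simp only [mu3]
      have : 0 ≤ ∑ k, ∑ l, m k l := sum_nonneg fun k _ => sum_nonneg fun l _ => hm.m0 k l
      linarith
    | some l =>
      simp only [mu3]
      have := hm.col l
      linarith
  | some k =>
    cases b with
    | none =>
      simp only [mu3]
      have := hm.row k
      linarith
    | some l =>
      simp only [mu3]
      exact hm.m0 k l

theorem mu3_row (g : ℝ) (m : κ → κ → ℝ) (k : κ) :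
    ∑ c', mu3 g m (some k, c') = g := by
  rw [Fintype.sum_option]
  simp only [mu3]
  ring

theorem mu3_col (g : ℝ) (m : κ → κ → ℝ) (l : κ) :
    ∑ c, mu3 g m (c, some l) = g := by
  rw [Fintype.sum_option]
  simp only [mu3]
  ring

theorem mu3_total (g : ℝ) (m : κ → κ → ℝ) : ∑ c, mu3 g m c = 1 := by
  rw [Fintype.sum_prod_type, Fintype.sum_option]
  simp only [mu3_row g m]
  rw [Fintype.sum_option]
  simp only [mu3]
  rw [sum_sub_distrib]
  rw [sum_comm (f := fun l k => m k l)]
  simp only [sum_const, card_univ, nsmul_eq_mul]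
  ring

/-- the local quadratic form at a general prime -/
theorem local_bad3 {g : ℝ} {m : κ → κ → ℝ} (hm : Mt3 g m) (hg : 0 ≤ g)
    (h : 10 * (Fintype.card κ : ℝ) * g ≤ 1) (hg1 : g ≤ 1) (Y : Option κ × Option κ → ℝ) :
    ∑ c, mu3 g m c * (∑ a, psi1 g a.1 c.1 * psi1 g a.2 c.2 * Y a) ^ 2 ≤
      ∑ a : Option κ × Option κ,
        (nu1 g a.1 * nu1 g a.2 + 13 * (Fintype.card κ : ℝ) * g) * (Y a) ^ 2 := by
  set u : ℝ := (Fintype.card κ : ℝ) with hu
  have hu0 : 0 ≤ u := Nat.cast_nonneg _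
  have hug : 0 ≤ u * g := mul_nonneg hu0 hg
  have hμ0 : ∀ c, 0 ≤ mu3 g m c := mu3_nonneg hm (by linarith)
  set S : ℝ := ∑ a : Option κ × Option κ, (Y a) ^ 2 with hS
  have hS0 : 0 ≤ S := sum_nonneg fun a _ => sq_nonneg _
  set N : ℝ := ∑ a : Option κ × Option κ, nu1 g a.1 * nu1 g a.2 * (Y a) ^ 2 with hN
  have hn : ∀ a : Option κ, 0 ≤ nu1 g a := by
    intro a
    rw [← abs_psi1_none hg]
    exact abs_nonneg _
  have hn1 : ∀ a : Option κ, nu1 g a ≤ 1 := by
    intro a
    cases a with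
    | none => simp [nu1]
    | some k => simpa [nu1] using hg1
  have hNS : N ≤ S := by
    apply sum_le_sum
    intro a _
    have h1 : nu1 g a.1 * nu1 g a.2 ≤ 1 := by
      have := mul_le_mul (hn1 a.1) (hn1 a.2) (hn a.2) zero_le_one
      simpa using this
    nlinarith [sq_nonneg (Y a)]
  have hN0 : 0 ≤ N := sum_nonneg fun a _ =>
    mul_nonneg (mul_nonneg (hn _) (hn _)) (sq_nonneg _)
  -- one term
  have hT : ∀ c : Option κ × Option κ, (∑ a, psi1 g a.1 c.1 * psi1 g a.2 c.2 * Y a) ^ 2 ≤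
      5 * S := by
    intro c
    have h1 := wcs (univ : Finset (Option κ × Option κ))
      (fun a => psi1 g a.1 c.1 * psi1 g a.2 c.2) Y
    refine h1.trans ?_
    have h2 : ∑ a : Option κ × Option κ, |psi1 g a.1 c.1 * psi1 g a.2 c.2| ≤ 5 := by
      rw [Fintype.sum_prod_type]
      simp only [abs_mul, ← Finset.mul_sum]
      rw [← Finset.sum_mul]
      have q1 := sum_abs_psi1 (κ := κ) hg c.1
      have q2 := sum_abs_psi1 (κ := κ) hg c.2
      rw [← hu] at q1 q2
      have q3 : 0 ≤ ∑ a, |psi1 g a c.2| := sum_nonneg fun a _ => abs_nonneg _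
      calc (∑ a, |psi1 g a c.1|) * ∑ a, |psi1 g a c.2| ≤ (2 + u * g) * (2 + u * g) :=
            mul_le_mul q1 q2 q3 (by positivity)
        _ ≤ 5 := by nlinarith
    have h3 : ∑ a : Option κ × Option κ, |psi1 g a.1 c.1 * psi1 g a.2 c.2| * Y a ^ 2 ≤ S := by
      apply sum_le_sum
      intro a _
      rw [abs_mul]
      have q1 := abs_psi1_le hg hg1 a.1 c.1
      have q2 := abs_psi1_le hg hg1 a.2 c.2
      have q3 : |psi1 g a.1 c.1| * |psi1 g a.2 c.2| ≤ 1 := by
        have := mul_le_mul q1 q2 (abs_nonneg _) zero_le_one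
        simpa using this
      nlinarith [sq_nonneg (Y a)]
    have h4 : 0 ≤ ∑ a : Option κ × Option κ, |psi1 g a.1 c.1 * psi1 g a.2 c.2| * Y a ^ 2 :=
      sum_nonneg fun a _ => by positivity
    exact mul_le_mul h2 h3 h4 (by norm_num)
  have hT0 : (∑ a : Option κ × Option κ, psi1 g a.1 none * psi1 g a.2 none * Y a) ^ 2 ≤
      (1 + 3 * (u * g)) * N := by
    have h1 := wcs (univ : Finset (Option κ × Option κ))
      (fun a => psi1 g a.1 none * psi1 g a.2 none) Y
    refine h1.trans ?_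
    simp only [abs_mul, abs_psi1_none hg]
    have h2 : ∑ a : Option κ × Option κ, nu1 g a.1 * nu1 g a.2 = (1 + u * g) * (1 + u * g) := by
      rw [Fintype.sum_prod_type]
      simp only [← Finset.mul_sum]
      rw [← Finset.sum_mul, sum_nu1']
    rw [h2]
    apply mul_le_mul_of_nonneg_right _ hN0
    nlinarith
  -- the sum
  have hsplit : ∑ c, mu3 g m c * (∑ a, psi1 g a.1 c.1 * psi1 g a.2 c.2 * Y a) ^ 2 ≤
      mu3 g m (none, none) * ((1 + 3 * (u * g)) * N) + (1 - mu3 g m (none, none)) * (5 * S) := by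
    rw [← Finset.add_sum_erase univ _ (mem_univ ((none, none) : Option κ × Option κ))]
    apply add_le_add
    · exact mul_le_mul_of_nonneg_left hT0 (hμ0 _)
    · have h5 : 1 - mu3 g m (none, none) = ∑ c ∈ univ.erase (none, none), mu3 g m c := by
        rw [← mu3_total g m, ← Finset.add_sum_erase univ _
          (mem_univ ((none, none) : Option κ × Option κ))]
        ring
      rw [h5, Finset.sum_mul]
      apply sum_le_sum
      intro c _
      exact mul_le_mul_of_nonneg_left (hT c) (hμ0 _)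
  have hμ1 : mu3 g m (none, none) ≤ 1 := by
    rw [← mu3_total g m]
    exact single_le_sum (fun c _ => hμ0 c) (mem_univ _)
  have hμ2 : 1 - mu3 g m (none, none) ≤ 2 * (u * g) := by
    simp only [mu3]
    have : 0 ≤ ∑ k, ∑ l, m k l := sum_nonneg fun k _ => sum_nonneg fun l _ => hm.m0 k l
    rw [← hu]
    linarith
  have hR : ∑ a : Option κ × Option κ, (nu1 g a.1 * nu1 g a.2 + 13 * u * g) * (Y a) ^ 2 =
      N + 13 * (u * g) * S := by
    simp only [add_mul, sum_add_distrib, hN, hS, Finset.mul_sum]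
    congr 1
    refine sum_congr rfl fun a _ => ?_
    ring
  rw [hR]
  refine hsplit.trans ?_
  have g1 : mu3 g m (none, none) * ((1 + 3 * (u * g)) * N) ≤ 1 * ((1 + 3 * (u * g)) * N) :=
    mul_le_mul_of_nonneg_right hμ1 (by positivity)
  have g2 : (1 - mu3 g m (none, none)) * (5 * S) ≤ 2 * (u * g) * (5 * S) :=
    mul_le_mul_of_nonneg_right hμ2 (by positivity)
  have g3 : 3 * (u * g) * N ≤ 3 * (u * g) * S := mul_le_mul_of_nonneg_left hNS (by positivity)
  linarith

/-- the local quadratic form at a good prime -/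
theorem local_good3 {g : ℝ} {m : κ → κ → ℝ} (hm : ∀ k l, m k l = 0) (hg : 0 ≤ g)
    (h : 10 * (Fintype.card κ : ℝ) * g ≤ 1) (Y : Option κ × Option κ → ℝ) :
    ∑ c, mu3 g m c * (∑ a, psi1 g a.1 c.1 * psi1 g a.2 c.2 * Y a) ^ 2 ≤
      ∑ a : Option κ × Option κ, (nu1 g a.1 * nu1 g a.2 + eg κ g a) * (Y a) ^ 2 := by
  have h1 : ∀ c, mu3 g m c = mu2 g (fun _ _ : κ => False) c := by
    rintro ⟨a, b⟩
    cases a <;> cases b <;> simp [mu3, mu2, hm]
  simp only [h1]
  exact local_good (fun _ _ h => h) hg h Y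

end Pool.Agent.K7.H60.PL
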