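import Pool.Agent.K7.H60.PL.Pl
import Pool.Agent.K7.H60.TL.Ns
import Pool.Agent.K7.H60.SP.Simul

/-!
Sums over the products of the sieving primes of a polynomial.
-/

set_option autoImplicit false
set_option linter.unusedSectionVars false

namespace Pool.Agent.K7.H60.PL

open Finset Polynomial Pool.Agent.H256R2.SC Pool.Agent.K7.H60.TL
open Pool.Agent.H474R2.PG (rho PR Sg Asum_enum')
open Pool.Agent.H426R3.SQ (SP)
open Pool.Agent.K7.H60.SP (gd gd_nonneg sum_gd EX mem_EX)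

open scoped Classical

/-- primes up to `z` without roots -/
noncomputable def Bz (f : ℤ[X]) (z : ℝ) : Finset ℕ := (PR z).filter (fun p => rho f p = 0)

/-- the primes in `(w, z]` modulo which `f` has a root -/
noncomputable def PPf (f : ℤ[X]) (w z : ℝ) : Finset ℕ := SP w z (Bz f z)

theorem mem_SPB {f : ℤ[X]} {w v z : ℝ} (hv : 0 ≤ v) (hvz : v ≤ z) {p : ℕ} :
    p ∈ SP w v (Bz f z) ↔ p.Prime ∧ w < (p : ℝ) ∧ (p : ℝ) ≤ v ∧ rho f p ≠ 0 := by
  unfold SP Bz PR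
  rw [mem_filter, mem_Icc, mem_filter, mem_filter, mem_Icc, Nat.le_floor_iff hv,
    Nat.le_floor_iff (hv.trans hvz)]
  constructor
  · rintro ⟨⟨h1, h2⟩, h3, h4, h5⟩
    refine ⟨h3, h4, h2, fun h6 => h5 ⟨⟨⟨h1, h2.trans hvz⟩, h3⟩, h6⟩⟩
  · rintro ⟨h1, h2, h3, h4⟩
    exact ⟨⟨h1.one_lt.le, h3⟩, h1, h2, fun h => h4 h.2⟩

theorem PPf_mem {f : ℤ[X]} {w z : ℝ} (hz : 0 ≤ z) {p : ℕ} :
    p ∈ PPf f w z ↔ p.Prime ∧ w < (p : ℝ) ∧ (p : ℝ) ≤ z ∧ rho f p ≠ 0 :=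
  mem_SPB hz le_rfl

theorem card_PPf (f : ℤ[X]) (w z : ℝ) (hz : 1 ≤ z) : ((PPf f w z).card : ℝ) + 1 ≤ z := by
  have h1 : PPf f w z ⊆ Finset.Icc 2 ⌊z⌋₊ := by
    intro p hp
    rw [PPf_mem (by linarith)] at hp
    rw [Finset.mem_Icc]
    exact ⟨hp.1.two_le, Nat.le_floor hp.2.2.1⟩
  have h2 := Finset.card_le_card h1
  rw [Nat.card_Icc] at h2
  have h3 : 1 ≤ ⌊z⌋₊ := Nat.le_floor (by exact_mod_cast hz)
  have h4 : (PPf f w z).card + 1 ≤ ⌊z⌋₊ := by omega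
  calc ((PPf f w z).card : ℝ) + 1 ≤ (⌊z⌋₊ : ℝ) := by exact_mod_cast h4
    _ ≤ z := Nat.floor_le (by linarith)

/-- partial sums of the weights -/
theorem sum_gp_le (f : ℤ[X]) {w z x : ℝ} (hw : 0 ≤ w) (hwx : w ≤ x) (hz : 0 ≤ z)
    (I : Finset (Fin (PPf f w z).card)) (hI : ∀ i ∈ I, Pf (PPf f w z) i ≤ x) :
    ∑ i ∈ I, gp f (PPf f w z) i ≤ Sg (rho f) x - Sg (rho f) w := by
  have h3 : ∑ i ∈ I, gp f (PPf f w z) i = ∑ p ∈ I.map (emb (PPf f w z)), (rho f p : ℝ) / (p : ℝ) := by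
    rw [sum_map]
    rfl
  have hBA : PR w ⊆ PR x := by
    intro p hp
    unfold PR at hp ⊢
    rw [mem_filter, mem_Icc] at hp ⊢
    exact ⟨⟨hp.1.1, hp.1.2.trans (Nat.floor_le_floor hwx)⟩, hp.2⟩
  have h5 : ∑ p ∈ PR x \ PR w, (rho f p : ℝ) / (p : ℝ) = Sg (rho f) x - Sg (rho f) w := by
    unfold Sg
    rw [← sum_sdiff hBA]
    ring
  rw [h3, ← h5]
  refine sum_le_sum_of_subset_of_nonneg ?_ fun p _ _ => by positivity
  intro p hp
  rw [mem_map] at hp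
  obtain ⟨i, hi, rfl⟩ := hp
  have q := (PPf_mem hz).1 (emb_mem (PPf f w z) i)
  rw [mem_sdiff]
  unfold PR
  rw [mem_filter, mem_filter, mem_Icc, mem_Icc]
  refine ⟨⟨⟨q.1.one_lt.le, Nat.le_floor (hI i hi)⟩, q.1⟩, ?_⟩
  rintro ⟨⟨_, h5⟩, _⟩
  have h6 : (((emb (PPf f w z) i : ℕ)) : ℝ) ≤ w := by
    calc (((emb (PPf f w z) i : ℕ)) : ℝ) ≤ (⌊w⌋₊ : ℝ) := by exact_mod_cast h5
      _ ≤ w := Nat.floor_le hw
  linarith [q.2.1]

theorem Uw_boundf (f : ℤ[X]) (hf : Irreducible f) (hd : 0 < f.natDegree) :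
    ∃ C3 : ℝ, 1 ≤ C3 ∧ ∀ w z x : ℝ, 4 ≤ w → w ≤ x → 0 ≤ z →
    Uw (Pf (PPf f w z)) (gp f (PPf f w z)) x ≤ C3 * (Real.log x / Real.log w) := by
  obtain ⟨CM, hCM0, hM⟩ := Pool.Agent.H474R2.GE.mertens_rho f hf hd
  refine ⟨Real.exp (2 * CM), Real.one_le_exp (by positivity), ?_⟩
  intro w z x hw hwx hz
  set PP := PPf f w z with hPP
  have hx0 : 0 < x := by linarith
  have hg0 : ∀ i, 0 ≤ gp f PP i := fun i => div_nonneg (Nat.cast_nonneg _) (Nat.cast_nonneg _)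
  have hP1 : ∀ i, 1 ≤ Pf PP i := fun i => by
    have h1 := ((PPf_mem hz).1 (emb_mem PP i)).1.one_lt
    exact_mod_cast h1.le
  set I : Finset (Fin PP.card) := univ.filter (fun i => Pf PP i ≤ x) with hI
  have h1 : Uw (Pf PP) (gp f PP) x ≤ ∏ i ∈ I, (1 + gp f PP i) := by
    rw [prod_one_add]
    unfold Uw
    refine sum_le_sum_of_subset_of_nonneg ?_ fun s _ _ => prod_nonneg fun i _ => hg0 i
    intro s hs
    rw [mem_filter] at hs
    rw [mem_powerset]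
    intro i hi
    rw [hI, mem_filter]
    refine ⟨mem_univ _, le_trans ?_ hs.2⟩
    rw [← Finset.mul_prod_erase s (Pf PP) hi]
    apply le_mul_of_one_le_right ((zero_le_one).trans (hP1 i))
    calc (1 : ℝ) = ∏ j ∈ s.erase i, (1 : ℝ) := by simp
      _ ≤ _ := Finset.prod_le_prod (fun _ _ => zero_le_one) fun j _ => hP1 j
  have h2 : ∏ i ∈ I, (1 + gp f PP i) ≤ Real.exp (∑ i ∈ I, gp f PP i) := by
    rw [Real.exp_sum]
    apply Finset.prod_le_prod
    · intro i _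
      have := hg0 i
      linarith
    · intro i _
      rw [add_comm]
      exact Real.add_one_le_exp _
  have h3 := sum_gp_le f (by linarith : (0:ℝ) ≤ w) hwx hz I (fun i hi => by
    rw [hI, mem_filter] at hi
    exact hi.2)
  have h6 := (abs_le.1 (hM x (by linarith))).2
  have h7 := (abs_le.1 (hM w (by linarith))).1
  have hlw : 0 < Real.log w := Real.log_pos (by linarith)
  have hlx : 0 < Real.log x := Real.log_pos (by linarith)
  refine h1.trans (h2.trans ?_)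
  have h8 : ∑ i ∈ I, gp f PP i ≤ 2 * CM + (Real.log (Real.log x) - Real.log (Real.log w)) := by
    linarith
  refine (Real.exp_le_exp.mpr h8).trans (le_of_eq ?_)
  rw [Real.exp_add, Real.exp_sub, Real.exp_log hlx, Real.exp_log hlw]

theorem Aw_gef {f : ℤ[X]} {PP : Finset ℕ} (T0 x : ℝ) :
    Asum (Pf PP) (gp f PP) x - Uw (Pf PP) (gp f PP) T0 ≤ Aw (Pf PP) (gp f PP) T0 x := by
  have hG : ∀ s : Finset (Fin PP.card), 0 ≤ ∏ j ∈ s, gp f PP j := fun s =>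
    prod_nonneg fun i _ => div_nonneg (Nat.cast_nonneg _) (Nat.cast_nonneg _)
  have h1 : Asum (Pf PP) (gp f PP) x ≤ Aw (Pf PP) (gp f PP) T0 x + Uw (Pf PP) (gp f PP) T0 := by
    unfold Asum Aw Uw
    rw [Finset.sum_filter, Finset.sum_filter, Finset.sum_filter, ← sum_add_distrib]
    apply sum_le_sum
    intro s _
    have hs := hG s
    by_cases h1 : s.Nonempty
    · by_cases h2 : ∏ i ∈ s, Pf PP i ≤ x
      · by_cases h3 : T0 ≤ ∏ i ∈ s, Pf PP i
        · rw [if_pos ⟨h1, h2⟩, if_pos ⟨h1, h3, h2⟩]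
          split_ifs <;> linarith
        · rw [if_pos ⟨h1, h2⟩, if_neg (fun hh => h3 hh.2.1), if_pos (not_le.1 h3).le]
          linarith
      · rw [if_neg (fun hh => h2 hh.2), if_neg (fun hh => h2 hh.2.2)]
        split_ifs <;> linarith
    · rw [if_neg (fun hh => h1 hh.1), if_neg (fun hh => h1 hh.1)]
      split_ifs <;> linarith
  linarith

/-- lower bound for the sums over products -/
theorem A_lowerf (f : ℤ[X]) (hf : Irreducible f) (hd : 0 < f.natDegree) :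
    ∃ c2 : ℝ, 0 < c2 ∧ ∃ w₀ : ℝ, 4 ≤ w₀ ∧ ∀ w z x : ℝ, w₀ ≤ w → w ≤ x → x ≤ z →
      c2 * Real.log x / Real.log w - 1 ≤ Asum (Pf (PPf f w z)) (gp f (PPf f w z)) x := by
  obtain ⟨CM, hCM0, hM⟩ := Pool.Agent.H474R2.GE.mertens_rho f hf hd
  obtain ⟨B₀, hB₀⟩ := Pool.Agent.H474R2.PG.rho_le f hf.ne_zero
  obtain ⟨c2, hc2, y₀, hy₀, hr⟩ := Pool.Agent.W154.PV.rough_lowerD (f.natDegree : ℝ) (2 * CM)
    (by exact_mod_cast hd)
  refine ⟨c2, hc2, max (max y₀ 4) B₀, (le_max_right _ _).trans (le_max_left _ _), ?_⟩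
  intro w z x hw hwx hxz
  have hw1 : y₀ ≤ w := (le_max_left _ _).trans ((le_max_left _ _).trans hw)
  have hw2 : (4 : ℝ) ≤ w := (le_max_right _ _).trans ((le_max_left _ _).trans hw)
  have hw3 : (B₀ : ℝ) ≤ w := (le_max_right _ _).trans hw
  have hw0 : 0 ≤ w := by linarith
  have hg : ∀ p, 0 ≤ gd w p f ∧ gd w p f ≤ (f.natDegree : ℝ) / (p : ℝ) := by
    intro p
    refine ⟨gd_nonneg _ _ _, ?_⟩
    unfold gd
    split_ifs with h
    · apply div_le_div_of_nonneg_right _ (Nat.cast_nonneg _)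
      have h1 : B₀ < p := by
        have : (B₀ : ℝ) < p := lt_of_le_of_lt hw3 h.1
        exact_mod_cast this
      exact_mod_cast hB₀ p h.2 h1
    · positivity
  have h1 := hr w z (Bz f z) (fun p => gd w p f) hw1 hg (by
    intro v hv1 hv2
    have hv0 : 0 ≤ v := hw0.trans hv1
    have e1 : ∑ p ∈ SP w v (Bz f z), gd w p f = Sg (rho f) v - Sg (rho f) w := by
      rw [← sum_gd hw0 hv1 f]
      apply sum_subset
      · intro p hp
        rw [mem_SPB hv0 hv2] at hp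
        unfold SP
        rw [mem_filter, mem_Icc, mem_EX hw0]
        exact ⟨⟨hp.1.one_lt.le, Nat.le_floor hp.2.2.1⟩, hp.1, hp.2.1, not_le.2 hp.2.1⟩
      · intro p hp hp'
        unfold SP at hp
        rw [mem_filter, mem_Icc, mem_EX hw0] at hp
        rw [mem_SPB hv0 hv2] at hp'
        have h2 : rho f p = 0 := by
          by_contra h3
          exact hp' ⟨hp.2.1, hp.2.2.1, (Nat.le_floor_iff hv0).1 hp.1.2, h3⟩
        unfold gd
        rw [h2]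
        simp
    rw [e1]
    have e2 := (abs_le.1 (hM v (by linarith))).1
    have e3 := (abs_le.1 (hM w (by linarith))).2
    linarith) x hwx hxz
  refine h1.trans (le_of_eq ?_)
  have h2 : Asum (Pf (PPf f w z)) (gp f (PPf f w z)) x =
      Asum (fun i => ((emb (PPf f w z) i : ℕ) : ℝ)) (fun i => gd w (emb (PPf f w z) i) f) x := by
    have h3 : gp f (PPf f w z) = fun i => gd w (emb (PPf f w z) i) f := by
      funext i
      have q := (PPf_mem (by linarith : (0:ℝ) ≤ z)).1 (emb_mem (PPf f w z) i)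
      unfold gp gd
      rw [if_pos ⟨q.2.1, q.1⟩]
    rw [h3]
  rw [h2, Asum_enum' (PPf f w z) (fun p => gd w p f) x]
  rfl

/-- sum of the weights of all the sieving primes -/
theorem sum_gpf (f : ℤ[X]) (hf : Irreducible f) (hd : 0 < f.natDegree) :
    ∃ CM : ℝ, 0 ≤ CM ∧ ∀ w z : ℝ, 3 ≤ z → w ≤ z → 0 ≤ w →
    ∑ i, gp f (PPf f w z) i ≤ Real.log (Real.log z) + CM := by
  obtain ⟨CM, hCM0, hM⟩ := Pool.Agent.H474R2.GE.mertens_rho f hf hd
  refine ⟨CM, hCM0, ?_⟩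
  intro w z hz hwz hw
  have h1 := sum_gp_le f hw hwz (by linarith : (0:ℝ) ≤ z) univ (fun i _ => by
    exact ((PPf_mem (by linarith : (0:ℝ) ≤ z)).1 (emb_mem (PPf f w z) i)).2.2.1)
  have h2 := (abs_le.1 (hM z hz)).2
  have h3 : 0 ≤ Sg (rho f) w := sum_nonneg fun p _ => by positivity
  linarith

end Pool.Agent.K7.H60.PL
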