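import Pool.Agent.K7.H60.PL.En
import Pool.Agent.K7.H60.TL.RA
import Pool.Agent.H474R2.PG.Growth
import Pool.Agent.H474R2.PG.Final

/-!
Runs of composite values of an irreducible polynomial in almost all very short intervals.
-/

set_option autoImplicit false
set_option linter.unusedSectionVars false

namespace Pool.Agent.K7.H60.PL

open Finset Filter Polynomial Pool.Agent.H256R2.SC Pool.Agent.K7.H60.TL
open Pool.Agent.H474R2.PG (rho PR PR_prime PR_le WW PR_not_dvd prod_le_exp Sg class_choice)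

open scoped Classical

/-- dyadic form -/
theorem dyadic_f (f : ℤ[X]) (hf : Irreducible f) (hd : 0 < f.natDegree)
    (hl : 0 < f.leadingCoeff) (θ : ℝ) (hθ : 0 < θ) (hθ1 : θ < 1) (A : ℕ) : ∃ c : ℝ, 0 < c ∧
    ∃ X₀ : ℝ, ∀ X : ℕ, X₀ ≤ X →
      (((Ico X (2 * X)).filter (fun x : ℕ => ¬ ∃ n m : ℕ, x < n ∧
        (m : ℝ) ≤ x + Real.exp ((Real.log x) ^ θ) ∧
        c * Real.log x * Real.log (Real.log x) ≤ (m : ℝ) - n ∧
        ∀ k ∈ Icc n m, ∃ p : ℕ, p.Prime ∧ (p : ℝ) ≤ (x : ℝ) ^ (1 / 10000 : ℝ) ∧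
          (p : ℤ) ∣ f.eval (k : ℤ) ∧ (p : ℤ) < f.eval (k : ℤ))).card : ℝ) ≤
        X / (Real.log X) ^ A := by
  obtain ⟨c, C5, C6, E, hc, hC5, hC6, hE3, X₀, hX₀⟩ := engine_f f hf hd (θ / 2) (by positivity) A
  obtain ⟨CM, hCM, hM⟩ := Pool.Agent.H474R2.GE.mertens_rho f hf hd
  obtain ⟨x₀, hx₀⟩ := Pool.Agent.H474R2.PG.growth f hd hl
  set c₁ : ℝ := min 1 (c * θ / (4 * Real.exp CM)) with hc₁
  have hc₁0 : 0 < c₁ := lt_min one_pos (by positivity)
  have hc₁1 : c₁ ≤ 1 := min_le_left _ _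
  have hc₁2 : c₁ ≤ c * θ / (4 * Real.exp CM) := min_le_right _ _
  have hev : ∀ᶠ L : ℝ in atTop, (20 ≤ L ∧ 3 ≤ L ^ (θ / 2) ∧
      C6 * Real.log L ≤ L ^ (1 - θ / 2) ∧ (C5 + 8) * Real.log L ≤ L ^ (θ / 2) ∧
      2 ≤ L ^ (1 - θ) ∧ 4 / c₁ ≤ L ∧ 1 ≤ Real.log L ∧ |(x₀ : ℝ)| ≤ L ∧
      10000 * Real.log L ≤ L) := by
    refine (eventually_ge_atTop _).and ((ev_rpow_ge 3 (θ / 2) (by positivity)).and
      ((ev_log_rpow C6 (1 - θ / 2) (by linarith)).and
      ((ev_log_rpow (C5 + 8) (θ / 2) (by positivity)).and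
      ((ev_rpow_ge 2 (1 - θ) (by linarith)).and ((eventually_ge_atTop _).and
      ((Real.tendsto_log_atTop.eventually_ge_atTop 1).and
      ((eventually_ge_atTop _).and ?_)))))))
    have h := ev_log_rpow 10000 1 one_pos
    filter_upwards [h] with L hL
    rwa [Real.rpow_one] at hL
  obtain ⟨L₀, hL₀⟩ := eventually_atTop.1 hev
  refine ⟨c₁ / 8, by positivity, max X₀ (max (Real.exp L₀) 1), ?_⟩
  intro X hX
  have hX1 : X₀ ≤ X := (le_max_left _ _).trans hX
  have hX2 : Real.exp L₀ ≤ X := (le_max_left _ _).trans ((le_max_right _ _).trans hX)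
  have hXpos : (0 : ℝ) < X := (Real.exp_pos _).trans_le hX2
  set L : ℝ := Real.log X with hL
  have hXL : (X : ℝ) = Real.exp L := (Real.exp_log hXpos).symm
  have hLL : L₀ ≤ L := by
    rw [hL, ← Real.log_exp L₀]
    exact Real.log_le_log (Real.exp_pos _) hX2
  obtain ⟨f1, f2, f3, f4, f5, f6, f7, f8, f9⟩ := hL₀ L hLL
  set l : ℝ := Real.log L with hldef
  have hLpos : 0 < L := by linarith
  have hl0 : 0 < l := by linarith
  have hlL : l ≤ L := by
    have := Real.log_le_sub_one_of_pos hLpos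
    linarith
  -- the primes
  set w' : ℝ := L ^ (θ / 2) with hw'
  have hw'0 : 0 ≤ w' := by positivity
  set H : ℕ := ⌊w'⌋₊ with hH
  have hH1 : (H : ℝ) ≤ w' := Nat.floor_le (by positivity)
  have hlogH : Real.log w' = θ / 2 * l := Real.log_rpow hLpos _
  have hHL : w' ≤ L := by
    calc L ^ (θ / 2) ≤ L ^ (1 : ℝ) := Real.rpow_le_rpow_of_exponent_le (by linarith) (by linarith)
      _ = L := Real.rpow_one L
  set N : ℕ := ⌊c₁ * L * l⌋₊ with hN
  have hcLl : 0 ≤ c₁ * L * l := by positivity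
  have hN1 : (N : ℝ) ≤ c₁ * L * l := Nat.floor_le hcLl
  have hN2 : c₁ * L * l < N + 1 := Nat.lt_floor_add_one _
  have hNL : (N : ℝ) ≤ L ^ 2 := by
    calc (N : ℝ) ≤ c₁ * L * l := hN1
      _ ≤ 1 * L * L := by
          apply mul_le_mul _ hlL hl0.le (by positivity)
          exact mul_le_mul_of_nonneg_right hc₁1 hLpos.le
      _ = L ^ 2 := by ring
  -- survivors
  obtain ⟨r, hr⟩ := class_choice f (PR w') (fun p hp => PR_prime hp) (Icc 1 N)
  set S : Finset ℕ := (Icc 1 N).filter (fun k : ℕ => ∀ p ∈ PR w',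
    ¬ (p : ℤ) ∣ f.eval (r + (k : ℤ))) with hS
  have hprod : ∏ p ∈ PR w', (1 - (rho f p : ℝ) / (p : ℝ)) ≤ Real.exp CM / (θ / 2 * l) := by
    refine (prod_le_exp f w').trans ?_
    have h2 := (abs_le.1 (hM w' f2)).1
    rw [hlogH] at h2
    calc Real.exp (-(Sg (rho f) w')) ≤ Real.exp (CM - Real.log (θ / 2 * l)) :=
          Real.exp_le_exp.mpr (by linarith)
      _ = Real.exp CM / (θ / 2 * l) := by
          rw [Real.exp_sub, Real.exp_log (by positivity)]
  have hcard : (S.card : ℝ) ≤ c * L := by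
    have h0 : (S.card : ℝ) ≤ N * ∏ p ∈ PR w', (1 - (rho f p : ℝ) / (p : ℝ)) := by
      have h1 := hr
      rw [Nat.card_Icc, Nat.add_sub_cancel] at h1
      refine le_trans (le_of_eq ?_) h1
      congr! 1
    calc (S.card : ℝ) ≤ N * ∏ p ∈ PR w', (1 - (rho f p : ℝ) / (p : ℝ)) := h0
      _ ≤ (c₁ * L * l) * (Real.exp CM / (θ / 2 * l)) := by
          apply mul_le_mul hN1 hprod _ hcLl
          apply Finset.prod_nonneg
          intro p hp
          have h1 : (0 : ℝ) < p := by exact_mod_cast (PR_prime hp).pos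
          have : (rho f p : ℝ) / p ≤ 1 := by
            rw [div_le_one h1]
            exact_mod_cast Pool.Agent.H474R2.PG.rho_le_self f p
          linarith
      _ = c₁ * (2 * Real.exp CM / θ) * L := by field_simp
      _ ≤ (c * θ / (4 * Real.exp CM)) * (2 * Real.exp CM / θ) * L := by
          apply mul_le_mul_of_nonneg_right _ hLpos.le
          exact mul_le_mul_of_nonneg_right hc₁2 (by positivity)
      _ = c * L / 2 := by field_simp; norm_num
      _ ≤ c * L := by
          have : 0 ≤ c * L := by positivity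
          linarith
  -- the class
  set P : ℕ := WW w' with hP
  have hP1 : 1 ≤ P := Pool.Agent.H474R2.PG.WW_pos w'
  set b : ℕ := (r % (P : ℤ)).toNat with hb
  have hbcast : ((b : ℕ) : ℤ) = r % (P : ℤ) := by
    rw [hb]
    exact Int.toNat_of_nonneg (Int.emod_nonneg _ (by exact_mod_cast (by omega : P ≠ 0)))
  have hbP : b < P := by
    have h1 := Int.emod_lt_of_pos r (show (0 : ℤ) < (P : ℤ) by exact_mod_cast (by omega : 0 < P))
    omega
  have hbr : (P : ℤ) ∣ (b : ℤ) - r := by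
    rw [hbcast]
    have h1 := Int.dvd_self_sub_emod (x := r) (m := (P : ℤ))
    have h2 : r % (P : ℤ) - r = -(r - r % (P : ℤ)) := by ring
    rw [h2]
    exact (dvd_neg).2 h1
  have hbW : b < P * (N + 1) := by
    calc b < P := hbP
      _ = P * 1 := (mul_one _).symm
      _ ≤ _ := Nat.mul_le_mul_left _ (by omega)
  set Y : ℕ := ⌊Real.exp (L ^ θ) / 2⌋₊ with hY
  have hY1 : (Y : ℝ) ≤ Real.exp (L ^ θ) / 2 := Nat.floor_le (by positivity)
  have hθθ : L ^ θ = w' * w' := by
    rw [hw', ← Real.rpow_add hLpos]; congr 1; ring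
  have hexp1 : (C5 + 8) * l * w' ≤ L ^ θ := by
    rw [hθθ]
    exact mul_le_mul_of_nonneg_right f4 (by positivity)
  have hN3' : (N : ℝ) + 1 ≤ L ^ 3 := by
    have h3 : 10 * L ^ 2 ≤ L * L ^ 2 := mul_le_mul_of_nonneg_right (by linarith) (sq_nonneg L)
    have h4 : 1 ≤ L ^ 2 := one_le_pow₀ (by linarith)
    have h5 : L ^ 3 = L * L ^ 2 := by ring
    rw [h5]
    linarith
  have hexp3 : Real.exp (3 * l) = L ^ 3 := by
    rw [hldef, mul_comm, Real.exp_mul, Real.exp_log hLpos]
    norm_num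
  have hN3 : (N : ℝ) + 1 ≤ Real.exp (3 * l) := by
    rw [hexp3]
    exact hN3'
  have hlθ : l ≤ l * w' := le_mul_of_one_le_right hl0.le (by linarith)
  have hlθ2 : w' ≤ l * w' := le_mul_of_one_le_left hw'0 f7
  have hY2 : Real.exp ((C5 + 6) * l * w') ≤ Y := by
    have h1 : Real.exp ((C5 + 6) * l * w') + 1 ≤ Real.exp (L ^ θ) / 2 := by
      have h2 : Real.exp ((C5 + 6) * l * w' + 2) ≤ Real.exp (L ^ θ) := by
        apply Real.exp_le_exp.mpr
        nlinarith
      have h3 : 1 ≤ Real.exp ((C5 + 6) * l * w') := Real.one_le_exp (by positivity)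
      have h4 : (4 : ℝ) ≤ Real.exp 2 := by
        have h4 : (2 : ℝ) ≤ Real.exp 1 := by have := Real.exp_one_gt_d9; linarith
        have h5 : Real.exp 2 = (Real.exp 1) ^ 2 := by rw [← Real.exp_nat_mul]; norm_num
        rw [h5]
        nlinarith
      rw [Real.exp_add] at h2
      have h5 := mul_le_mul_of_nonneg_left h4 (by linarith : 0 ≤ Real.exp ((C5 + 6) * l * w'))
      linarith
    have h2 : Real.exp (L ^ θ) / 2 < Y + 1 := Nat.lt_floor_add_one _
    linarith
  have hPexp : (P : ℝ) ≤ Real.exp (2 * H) := primorial_prod H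
  have hmain := hX₀ X hX1 S (fun k => (k : ℕ)) N (P * (N + 1)) b Y (L ^ (1 - θ / 2))
    (by rw [Fintype.card_coe]; exact hcard) Subtype.val_injective
    (fun k => (mem_Icc.1 (mem_filter.1 k.2).1).2) hNL
    (by
      calc N < N + 1 := Nat.lt_succ_self _
        _ = 1 * (N + 1) := (one_mul _).symm
        _ ≤ _ := Nat.mul_le_mul_right _ hP1)
    hbW
    (by
      intro p hp hlt hdvd
      have hLE : L ^ 3 ≤ L ^ E := pow_le_pow_right₀ (by linarith) hE3
      have hL3 : L ≤ L ^ 3 := le_self_pow₀ (by linarith) (by norm_num)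
      rcases (Nat.Prime.dvd_mul hp).1 hdvd with h1 | h1
      · exact PR_not_dvd hw'0 hp (by linarith) h1
      · have h2 : p ≤ N + 1 := Nat.le_of_dvd (by omega) h1
        have h3 : (p : ℝ) ≤ (N : ℝ) + 1 := by exact_mod_cast h2
        linarith)
    f3 le_rfl
    (by
      refine le_trans ?_ hY2
      have h1 : L / L ^ (1 - θ / 2) = w' := by
        rw [hw', div_eq_iff (by positivity), ← Real.rpow_add hLpos]
        rw [show θ / 2 + (1 - θ / 2) = 1 by ring, Real.rpow_one]
      rw [h1]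
      have h2 : (P : ℝ) ≤ Real.exp (2 * (l * w')) := by
        refine hPexp.trans (Real.exp_le_exp.mpr ?_)
        linarith
      have h3 : (N : ℝ) + 1 ≤ Real.exp (3 * (l * w')) := by
        refine hN3.trans (Real.exp_le_exp.mpr ?_)
        linarith
      push_cast
      calc (P : ℝ) * (N + 1) * Real.exp (C5 * l * w') ≤
            Real.exp (2 * (l * w')) * Real.exp (3 * (l * w')) *
              Real.exp (C5 * l * w') := by
            apply mul_le_mul_of_nonneg_right _ (Real.exp_pos _).le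
            exact mul_le_mul h2 h3 (by positivity) (Real.exp_pos _).le
        _ = Real.exp ((C5 + 5) * l * w') := by
            rw [← Real.exp_add, ← Real.exp_add]; congr 1; ring
        _ ≤ _ := by
            apply Real.exp_le_exp.mpr
            have : 0 ≤ l * w' := by positivity
            nlinarith)
    (by
      have h1 : L ^ θ ≤ L / 2 := by
        have h2 : L = L ^ θ * L ^ (1 - θ) := by
          rw [← Real.rpow_add hLpos]
          rw [show θ + (1 - θ) = 1 by ring, Real.rpow_one]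
        have h3 : L ^ θ * 2 ≤ L ^ θ * L ^ (1 - θ) := mul_le_mul_of_nonneg_left f5 (by positivity)
        linarith
      have h4 := Real.exp_le_exp.mpr h1
      have h5 := Real.exp_pos (L ^ θ)
      linarith)
  refine le_trans ?_ hmain
  apply Nat.cast_le.mpr
  apply card_le_card
  intro x hx
  rw [mem_filter, mem_Ico] at hx
  rw [mem_filter, mem_Ico]
  refine ⟨hx.1, ?_⟩
  rintro ⟨n, hnb, hnX, hn1, hn2, hn3⟩
  apply hx.2
  have hxX : (X : ℝ) ≤ x := by exact_mod_cast hx.1.1
  have hx2X : (x : ℝ) ≤ 2 * X := by exact_mod_cast hx.1.2.le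
  have hx0 : (0 : ℝ) < x := by linarith
  have hlogx : L ≤ Real.log x := Real.log_le_log hXpos hxX
  have hlogx2 : Real.log x ≤ 2 * L := by
    have h1 : Real.log x ≤ Real.log (2 * X) := Real.log_le_log hx0 hx2X
    rw [Real.log_mul (by norm_num) hXpos.ne'] at h1
    have := Real.log_two_lt_d9
    linarith
  have hllx : Real.log (Real.log x) ≤ 2 * l := by
    have h1 : Real.log (Real.log x) ≤ Real.log (2 * L) := Real.log_le_log (by linarith) hlogx2
    rw [Real.log_mul (by norm_num) hLpos.ne'] at h1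
    have := Real.log_two_lt_d9
    linarith
  have hxpow : Real.exp (L / 10000) ≤ (x : ℝ) ^ (1 / 10000 : ℝ) := by
    rw [Real.rpow_def_of_pos hx0]
    apply Real.exp_le_exp.mpr
    linarith
  have hwx : w' ≤ Real.exp (L / 10000) := by
    refine hHL.trans ?_
    rw [← Real.log_le_iff_le_exp hLpos]
    linarith
  refine ⟨n + 1, n + N, by omega, ?_, ?_, ?_⟩
  · have h1 : ((n + N : ℕ) : ℝ) ≤ x + Y + N := by
      push_cast
      have : (n : ℝ) ≤ x + Y := by exact_mod_cast hn2
      linarith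
    have h2 : (N : ℝ) ≤ Real.exp (L ^ θ) / 2 := by
      have h3 : Real.exp (3 * l) ≤ Real.exp ((C5 + 6) * l * w') := by
        apply Real.exp_le_exp.mpr
        have : 0 ≤ l * w' := by positivity
        nlinarith
      linarith
    have h3 : Real.exp (L ^ θ) ≤ Real.exp ((Real.log x) ^ θ) :=
      Real.exp_le_exp.mpr (Real.rpow_le_rpow hLpos.le hlogx hθ.le)
    linarith
  · push_cast
    have h1 : c₁ / 8 * Real.log x * Real.log (Real.log x) ≤ c₁ / 8 * (2 * L) * (2 * l) := by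
      apply mul_le_mul _ hllx _ (by positivity)
      · exact mul_le_mul_of_nonneg_left hlogx2 (by positivity)
      · apply Real.log_nonneg; linarith
    have h2 : 4 ≤ c₁ * L * l := by
      have h3 : 4 ≤ c₁ * L := by
        rw [div_le_iff₀ hc₁0] at f6
        linarith
      have h4 : 4 * 1 ≤ (c₁ * L) * l := mul_le_mul h3 f7 (by norm_num) (by positivity)
      linarith
    linarith
  · intro k hk
    rw [mem_Icc] at hk
    obtain ⟨j, hj⟩ : ∃ j, k = n + j := ⟨k - n, by omega⟩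
    have hj1 : j ∈ Icc 1 N := by rw [mem_Icc]; omega
    have hex : ∃ p : ℕ, p.Prime ∧ (p : ℝ) ≤ Real.exp (L / 10000) ∧ (p : ℤ) ∣ f.eval (k : ℤ) := by
      by_cases hjS : j ∈ S
      · obtain ⟨p, hp, hpz, hpd⟩ := hn3 ⟨j, hjS⟩
        refine ⟨p, hp, hpz, ?_⟩
        rw [hj]
        push_cast
        exact hpd
      · rw [hS, mem_filter] at hjS
        push Not at hjS
        obtain ⟨p, hp, hpd⟩ := hjS hj1
        refine ⟨p, PR_prime hp, (PR_le hw'0 hp).trans hwx, ?_⟩
        have hpP : p ∣ P := Finset.dvd_prod_of_mem _ hp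
        have h1 : ((P : ℕ) : ℤ) ∣ (n : ℤ) - b := by
          have h2 : n ≡ b [MOD P * (N + 1)] := by
            unfold Nat.ModEq
            rw [hnb, Nat.mod_eq_of_lt hbW]
          have h3 := Nat.modEq_iff_dvd.1 h2.symm
          exact (by
            push_cast at h3
            exact (Dvd.intro _ rfl).trans h3)
        have h2 : ((P : ℕ) : ℤ) ∣ (n : ℤ) - r := by
          have := dvd_add h1 hbr
          have e : (n : ℤ) - b + (b - r) = n - r := by ring
          rwa [e] at this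
        have h3 : (p : ℤ) ∣ (n : ℤ) - r := (by exact_mod_cast hpP : (p : ℤ) ∣ (P : ℤ)).trans h2
        have h4 : (p : ℤ) ∣ ((k : ℤ)) - (r + (j : ℤ)) := by
          rw [hj]
          push_cast
          have e : (n : ℤ) + j - (r + j) = n - r := by ring
          rw [e]
          exact h3
        exact (Pool.Agent.H474R2.PG.eval_dvd_congr f p _ _ h4).2 hpd
    obtain ⟨p, hp, hpz, hpd⟩ := hex
    refine ⟨p, hp, hpz.trans hxpow, hpd, ?_⟩
    have hkX : (X : ℝ) ≤ ((k : ℤ) : ℝ) := by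
      push_cast
      exact_mod_cast (by omega : X ≤ k)
    have hXbig : 4 * Real.exp (L / 10000) ≤ X := by
      rw [hXL]
      have e1 : Real.exp L = Real.exp (L / 10000) * Real.exp (L - L / 10000) := by
        rw [← Real.exp_add]; congr 1; ring
      have e2 : 4 ≤ Real.exp (L - L / 10000) := by
        have := Real.add_one_le_exp (L - L / 10000)
        linarith
      have e3 := Real.exp_pos (L / 10000)
      rw [e1]
      nlinarith
    have h2 : x₀ ≤ (k : ℤ) := by
      have h3 : (x₀ : ℝ) ≤ L := (le_abs_self _).trans f8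
      have h4 : L ≤ X := by
        rw [hXL]
        have := Real.add_one_le_exp L
        linarith
      have : (x₀ : ℝ) ≤ ((k : ℤ) : ℝ) := by linarith
      exact_mod_cast this
    have h3 := hx₀ _ h2
    have h4 : ((k : ℤ) : ℝ) ≤ 2 * (((f.eval (k : ℤ)) : ℤ) : ℝ) := by exact_mod_cast h3
    have h5 : (p : ℝ) < (((f.eval (k : ℤ)) : ℤ) : ℝ) := by
      have := Real.exp_pos (L / 10000)
      linarith
    exact_mod_cast h5

/-- Runs of `c log x log log x` consecutive integers at which an irreducible polynomial takes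
composite values, in almost all intervals of length `exp ((log x) ^ θ)`. -/
theorem runs_very_short_f (f : ℤ[X]) (hf : Irreducible f) (hd : 0 < f.natDegree)
    (hl : 0 < f.leadingCoeff) (θ : ℝ) (hθ : 0 < θ) (hθ1 : θ < 1) (A : ℕ) : ∃ c : ℝ, 0 < c ∧
    ∃ X₀ : ℕ, ∀ X : ℕ, X₀ ≤ X →
      (((range X).filter (fun x : ℕ => ¬ ∃ n m : ℕ, x < n ∧
        (m : ℝ) ≤ x + Real.exp ((Real.log x) ^ θ) ∧
        c * Real.log x * Real.log (Real.log x) ≤ (m : ℝ) - n ∧
        ∀ k ∈ Icc n m, ∃ p : ℕ, p.Prime ∧ (p : ℝ) ≤ (x : ℝ) ^ (1 / 10000 : ℝ) ∧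
          (p : ℤ) ∣ f.eval (k : ℤ) ∧ (p : ℤ) < f.eval (k : ℤ))).card : ℝ) ≤
        X / (Real.log X) ^ A := by
  obtain ⟨c, hc, h⟩ := dyadic_f f hf hd hl θ hθ hθ1 (A + 1)
  exact ⟨c, hc, dyadic_to_range (fun x : ℕ => ∃ n m : ℕ, x < n ∧
        (m : ℝ) ≤ x + Real.exp ((Real.log x) ^ θ) ∧
        c * Real.log x * Real.log (Real.log x) ≤ (m : ℝ) - n ∧
        ∀ k ∈ Icc n m, ∃ p : ℕ, p.Prime ∧ (p : ℝ) ≤ (x : ℝ) ^ (1 / 10000 : ℝ) ∧
          (p : ℤ) ∣ f.eval (k : ℤ) ∧ (p : ℤ) < f.eval (k : ℤ)) A h⟩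

end Pool.Agent.K7.H60.PL
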