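import Pool.Agent.K7.H60.TL.TR
import Pool.Agent.K7.H60.PL.PB

/-!
Elementary pair events.
-/

set_option autoImplicit false
set_option linter.unusedSectionVars false

namespace Pool.Agent.K7.H60.PL

open Finset Pool.Agent.H256R2.SC Pool.Agent.K7.H60.TL

open scoped Classical

variable {n : ℕ} {κ : Type} [Fintype κ] [DecidableEq κ]

/-- local probabilities of elementary pair events -/
noncomputable def nu3 (g : ℝ) (m : κ → κ → ℝ) (a b : Option κ) : ℝ :=
  match a, b with
  | none, none => 1
  | some _, none => g
  | none, some _ => g
  | some k, some l => m k l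

theorem E2_ind3 (g : Fin n → ℝ) (m : Fin n → κ → κ → ℝ)
    (D D' : Col n κ) :
    E2 (fun i => mu3 (g i) (m i)) (fun x x' => ind D x * ind D' x') =
      ∏ i, nu3 (g i) (m i) (D i) (D' i) := by
  unfold E2
  have h1 : ∀ x : Fin n → Option κ × Option κ,
      (∏ i, mu3 (g i) (m i) (x i)) * (ind D (fs x) * ind D' (sn x)) =
      ∏ i, (mu3 (g i) (m i) (x i) * ((if D i ≠ none → (x i).1 = D i then (1 : ℝ) else 0) *
        (if D' i ≠ none → (x i).2 = D' i then (1 : ℝ) else 0))) := by
    intro x
    rw [ind_eq_prod, ind_eq_prod, prod_mul_distrib, prod_mul_distrib]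
    rfl
  rw [Finset.sum_congr rfl (fun x _ => h1 x)]
  have h2 := Finset.prod_univ_sum (fun _ : Fin n => (Finset.univ : Finset (Option κ × Option κ)))
    (fun i c => (mu3 (g i) (m i) c * ((if D i ≠ none → c.1 = D i then (1 : ℝ) else 0) *
        (if D' i ≠ none → c.2 = D' i then (1 : ℝ) else 0))))
  rw [Fintype.piFinset_univ] at h2
  rw [← h2]
  apply Finset.prod_congr rfl
  intro i _
  generalize D i = a
  generalize D' i = b
  cases a with
  | none =>
    cases b with
    | none =>
      simp only [ne_eq, not_true_eq_false, false_implies, if_true, mul_one, nu3]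
      exact mu3_total (g i) (m i)
    | some l =>
      simp only [ne_eq, not_true_eq_false, false_implies, if_true, one_mul, nu3, reduceCtorEq,
        not_false_eq_true, true_implies]
      rw [Fintype.sum_prod_type]
      refine Eq.trans ?_ (mu3_col (g i) (m i) l)
      apply sum_congr rfl
      intro c _
      rw [sum_eq_single (some l)]
      · simp
      · intro c' _ hc'
        rw [if_neg hc', mul_zero]
      · intro hh
        exact absurd (mem_univ _) hh
  | some k =>
    cases b with
    | none =>
      simp only [ne_eq, not_true_eq_false, false_implies, if_true, mul_one, nu3, reduceCtorEq,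
        not_false_eq_true, true_implies]
      rw [Fintype.sum_prod_type, sum_eq_single (some k)]
      · simp only [if_true, mul_one]
        exact mu3_row (g i) (m i) k
      · intro c _ hc
        apply sum_eq_zero
        intro c' _
        rw [if_neg hc, mul_zero]
      · intro hh
        exact absurd (mem_univ _) hh
    | some l =>
      simp only [ne_eq, nu3, reduceCtorEq, not_false_eq_true, true_implies]
      rw [sum_eq_single ((some k, some l) : Option κ × Option κ)]
      · simp [mu3]
      · intro c _ hc
        by_cases h3 : c.1 = some k
        · have h4 : c.2 ≠ some l := fun h5 => hc (Prod.ext h3 h5)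
          rw [if_neg h4, mul_zero, mul_zero]
        · rw [if_neg h3, zero_mul, mul_zero]
      · intro hh
        exact absurd (mem_univ _) hh

end Pool.Agent.K7.H60.PL
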